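import Pool.Agent.Helper78.KD.Defs

/-!
# Second mean value inequality, integrals of periodic functions along a family
-/

set_option autoImplicit false

namespace Pool.Agent.Helper41.KD

open MeasureTheory Set Filter Topology
open Pool.Agent.Helper78.KD

/-- Bonnet: second mean value inequality -/
theorem bonnet {f g : ℝ → ℝ} {p q c : ℝ} (hpq : p ≤ q) (hf : AntitoneOn f (Icc p q)) (hf0 : 0 ≤ f q)
    (hg : ContinuousOn g (Icc p q)) (hc : ∀ x ∈ Icc p q, |∫ y in p..x, g y| ≤ c) :
    |∫ x in p..q, f x * g x| ≤ c * f p := by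
  have hc0 : 0 ≤ c := (abs_nonneg _).trans (hc p ⟨le_rfl, hpq⟩)
  -- extensions
  set pr : ℝ → ℝ := fun x => max p (min q x) with hpr
  have hprm : ∀ x, pr x ∈ Icc p q := fun x => ⟨le_max_left _ _, max_le hpq (min_le_left _ _)⟩
  have hprc : Continuous pr := continuous_const.max (continuous_const.min continuous_id)
  have hprmono : Monotone pr := fun x y h => max_le_max le_rfl (min_le_min le_rfl h)
  have hpreq : ∀ x ∈ Icc p q, pr x = x := fun x hx => by
    simp only [hpr]
    rw [min_eq_right hx.2, max_eq_right hx.1]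
  set F : ℝ → ℝ := fun x => f (pr x) with hF
  set G : ℝ → ℝ := fun x => g (pr x) with hG
  have hFanti : Antitone F := fun x y h => hf (hprm x) (hprm y) (hprmono h)
  have hFmeas : Measurable F := hFanti.measurable
  have hGc : Continuous G := hg.comp_continuous hprc hprm
  have hFp : ∀ x, F x ≤ f p := fun x => hf ⟨le_rfl, hpq⟩ (hprm x) (hprm x).1
  have hF0 : ∀ x, 0 ≤ F x := fun x => hf0.trans (hf (hprm x) ⟨hpq, le_rfl⟩ (hprm x).2)
  have hfp0 : 0 ≤ f p := (hF0 p).trans (hFp p)
  have h1 : ∫ x in p..q, f x * g x = ∫ x in Ioc p q, F x * G x := by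
    rw [intervalIntegral.integral_of_le hpq]
    refine setIntegral_congr_fun measurableSet_Ioc fun x hx => ?_
    have hx' : x ∈ Icc p q := ⟨hx.1.le, hx.2⟩
    simp only [hF, hG, hpreq x hx']
  -- layer cake
  set ind : ℝ → ℝ → ℝ := fun x s => if s < F x then 1 else 0 with hind
  have h2 : ∀ x, F x = ∫ s in Ioc (0 : ℝ) (f p), ind x s := by
    intro x
    have e1 : ∫ s in Ioc (0 : ℝ) (f p), ind x s = ∫ s in Ioc (0 : ℝ) (f p), (Iio (F x)).indicator (fun _ => (1 : ℝ)) s := by
      refine setIntegral_congr_fun measurableSet_Ioc fun s _ => ?_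
      simp only [hind, indicator, mem_Iio]
    rw [e1, setIntegral_indicator measurableSet_Iio]
    have e2 : (Ioc (0 : ℝ) (f p) ∩ Iio (F x) : Set ℝ) = Ioo 0 (F x) := by
      ext s
      simp only [mem_inter_iff, mem_Ioc, mem_Iio, mem_Ioo]
      constructor
      · rintro ⟨⟨a1, _⟩, a3⟩
        exact ⟨a1, a3⟩
      · rintro ⟨a1, a2⟩
        exact ⟨⟨a1, a2.le.trans (hFp x)⟩, a2⟩
    rw [e2, setIntegral_const]
    simp [hF0 x]
  obtain ⟨B, hB⟩ : ∃ B, ∀ x, |G x| ≤ B := by
    obtain ⟨B, hB⟩ := (isCompact_Icc (a := p) (b := q)).exists_bound_of_continuousOn hg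
    exact ⟨B, fun x => hB _ (hprm x)⟩
  have hmeas : Measurable (fun z : ℝ × ℝ => ind z.1 z.2 * G z.1) := by
    refine Measurable.mul ?_ (hGc.measurable.comp measurable_fst)
    exact Measurable.ite (measurableSet_lt measurable_snd (hFmeas.comp measurable_fst)) measurable_const
      measurable_const
  have hfin1 : IsFiniteMeasure (volume.restrict (Ioc p q)) := ⟨by simp⟩
  have hfin2 : IsFiniteMeasure (volume.restrict (Ioc (0 : ℝ) (f p))) := ⟨by simp⟩
  have hint : Integrable (Function.uncurry fun x s => ind x s * G x)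
      ((volume.restrict (Ioc p q)).prod (volume.restrict (Ioc (0 : ℝ) (f p)))) := by
    refine Integrable.of_bound (C := B) hmeas.aestronglyMeasurable (Eventually.of_forall ?_)
    rintro ⟨x, s⟩
    simp only [Function.uncurry, hind]
    split_ifs
    · simpa using hB x
    · simpa using (abs_nonneg _).trans (hB x)
  have h3 : ∫ x in Ioc p q, F x * G x = ∫ s in Ioc (0 : ℝ) (f p), ∫ x in Ioc p q, ind x s * G x := by
    rw [← integral_integral_swap hint]
    refine integral_congr_ae (Eventually.of_forall fun x => ?_)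
    show F x * G x = ∫ s in Ioc (0 : ℝ) (f p), ind x s * G x
    rw [integral_mul_const, ← h2 x]
  have h4 : ∀ s : ℝ, |∫ x in Ioc p q, ind x s * G x| ≤ c := by
    intro s
    set A : Set ℝ := {x | x ∈ Ioc p q ∧ s < F x} with hA
    have hAm : MeasurableSet A := measurableSet_Ioc.inter (measurableSet_lt measurable_const hFmeas)
    have e1 : ∫ x in Ioc p q, ind x s * G x = ∫ x in A, G x := by
      have e2 : A = Ioc p q ∩ {x | s < F x} := rfl
      rw [e2, ← setIntegral_indicator (measurableSet_lt measurable_const hFmeas)]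
      refine setIntegral_congr_fun measurableSet_Ioc fun x _ => ?_
      simp only [hind, indicator, Set.mem_ofPred_eq]
      split_ifs <;> simp
    rw [e1]
    rcases A.eq_empty_or_nonempty with hE | hne
    · rw [hE]
      simpa using hc0
    · have hbdd : BddAbove A := ⟨q, fun x hx => hx.1.2⟩
      set y := sSup A with hy
      have hyq : y ≤ q := csSup_le hne fun x hx => hx.1.2
      obtain ⟨x0, hx0⟩ := hne
      have hyp : p ≤ y := hx0.1.1.le.trans (le_csSup hbdd hx0)
      have hAE : A =ᵐ[volume] Ioc p y := by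
        refine Filter.EventuallyLE.antisymm ?_ ?_
        · exact HasSubset.Subset.eventuallyLE fun x hx => ⟨hx.1.1, le_csSup hbdd hx⟩
        · have e3 : Ioc p y =ᵐ[volume] Ioo p y := Ioo_ae_eq_Ioc.symm
          refine e3.le.trans (HasSubset.Subset.eventuallyLE fun x hx => ?_)
          obtain ⟨z, hz, hxz⟩ := exists_lt_of_lt_csSup ⟨x0, hx0⟩ hx.2
          exact ⟨⟨hx.1, hx.2.le.trans hyq⟩, hz.2.trans_le (hFanti hxz.le)⟩
      rw [setIntegral_congr_set hAE, ← intervalIntegral.integral_of_le hyp]
      have e4 : ∫ x in p..y, G x = ∫ x in p..y, g x := by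
        refine intervalIntegral.integral_congr fun x hx => ?_
        rw [uIcc_of_le hyp] at hx
        simp only [hG, hpreq x ⟨hx.1, hx.2.trans hyq⟩]
      rw [e4]
      exact hc y ⟨hyp, hyq⟩
  rw [h1, h3]
  have h5 := norm_setIntegral_le_of_norm_le_const (μ := volume) (s := Ioc (0 : ℝ) (f p)) (C := c)
    (f := fun s => ∫ x in Ioc p q, ind x s * G x) (by simp) (fun s _ => h4 s)
  simpa [Measure.real, Real.volume_Ioc, ENNReal.toReal_ofReal hfp0] using h5

end Pool.Agent.Helper41.KD
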