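import Pool.Agent.Helper41.KD.Steer
import Pool.Agent.Helper78.KD.Glue
import Pool.Agent.Helper80.KD.Inst

/-!
# Bounded deviations on sets of full dimension
-/

set_option autoImplicit false

namespace Pool.Agent.Helper41.KD

open MeasureTheory Set Filter Topology
open Pool.Agent.Helper78.KD
open Pool.Agent.Helper53.KD (exists_tree size)
open Pool.Agent.Helper44.KD (block_var)

variable {ι : Type} [Fintype ι] {u : ℕ → ℝ → ℝ} {a b O : ℝ} {X : ι → ℕ → ℝ → ℝ} {M : ι → ℝ → ℝ → ℝ}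

/-- combinations of observables -/
theorem obs_combo (h : ∀ i, Obs u a b (X i) (M i) O) (hO : 0 ≤ O) (w : ι → ℝ) (hw : ∑ i, |w i| ≤ 1) :
    Obs u a b (fun n x => ∑ i, w i * X i n x) (fun p q => ∑ i, w i * M i p q) O := by
  have habs : ∀ (z : ι → ℝ) (r : ℝ), 0 ≤ r → (∀ i, |z i| ≤ r) → |∑ i, w i * z i| ≤ r := by
    intro z r hr hz
    refine (Finset.abs_sum_le_sum_abs _ _).trans ?_
    calc ∑ i, |w i * z i| ≤ ∑ i, |w i| * r := Finset.sum_le_sum fun i _ => by
          rw [abs_mul]; exact mul_le_mul_of_nonneg_left (hz i) (abs_nonneg _)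
      _ = (∑ i, |w i|) * r := by rw [Finset.sum_mul]
      _ ≤ r := by nlinarith
  refine ⟨fun n x hx => habs _ 1 zero_le_one fun i => (h i).bd n x hx, fun n => ?_, fun t m ht h0 hm hm1 => ?_,
    fun n p q hp hpq hq h1 h2 x hx => ?_⟩
  · exact continuousOn_finsetSum _ fun i _ => continuousOn_const.mul ((h i).cont n)
  · have e : ∀ i, ∑ j ∈ Finset.range m, (t (j + 1) - t j) * M i (t j) (t (j + 1)) = (t m - t 0) * M i (t 0) (t m) :=
      fun i => (h i).add t m ht h0 hm hm1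
    calc ∑ j ∈ Finset.range m, (t (j + 1) - t j) * ∑ i, w i * M i (t j) (t (j + 1))
        = ∑ i, w i * ∑ j ∈ Finset.range m, (t (j + 1) - t j) * M i (t j) (t (j + 1)) := by
          simp only [Finset.mul_sum]
          rw [Finset.sum_comm]
          exact Finset.sum_congr rfl fun i _ => Finset.sum_congr rfl fun j _ => by ring
      _ = ∑ i, w i * ((t m - t 0) * M i (t 0) (t m)) := Finset.sum_congr rfl fun i _ => by rw [e i]
      _ = _ := by
          rw [Finset.mul_sum]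
          exact Finset.sum_congr rfl fun i _ => by ring
  · have e : SX (fun n x => ∑ i, w i * X i n x) n x - ∑ i, w i * M i p q = ∑ i, w i * (SX (X i) n x - M i p q) := by
      unfold SX
      rw [Finset.sum_comm, ← Finset.sum_sub_distrib]
      refine Finset.sum_congr rfl fun i _ => ?_
      rw [← Finset.mul_sum]
      ring
    rw [e]
    exact habs _ O hO fun i => (h i).osc n p q hp hpq hq h1 h2 x hx

/-- bounded partial sums for the observables of a family -/
theorem bdd_family {v : ℕ → ℝ → ℝ} {β₁ β₂ : ℝ} (hF : Fam u v a b β₁ β₂) {L : ℕ} (hL : 1 ≤ L)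
    (hX : ∀ i, Obs u a b (X i) (M i) O) (hO : 1 ≤ O) {q : ℝ} (hq : 0 < q) (hq1 : q ≤ 1)
    (hOL : 384 * O ^ 2 ≤ (q / 4) ^ 2 * L)
    (hvar : ∀ w : ι → ℝ, ∑ i, |w i| = 1 → ∃ Q, q ≤ Q ∧ Q ≤ 1 ∧
      BlockVarG (fun n x => ∑ i, w i * X i n x) u a b Q (q / 4) L) :
    ENNReal.ofReal (1 - Real.log (72 * L / q) / (L * Real.log β₁)) ≤
      dimH {x | x ∈ Icc a b ∧ ∀ i, ∃ B : ℝ, ∀ N : ℕ, |SX (X i) N x| ≤ B} := by
  classical
  have hLr : (1 : ℝ) ≤ L := by exact_mod_cast hL
  have hlβ₁ : 0 < Real.log β₁ := Real.log_pos hF.hβ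
  obtain ⟨T, hT0, hT1, hTm, hTc, hTi⟩ := exists_tree hF L hL
  have hT : FT T u a b L := ⟨hT0, hT1, hTm, hTc, hTi⟩
  obtain ⟨c₀, C₀, hc₀, hC₀, hsize⟩ := size hF
  have hOL' : O ≤ L := by
    have h1 : (q / 4) ^ 2 ≤ 1 := by nlinarith
    nlinarith
  have hmom : ∀ w : ι → ℝ, ∑ i, |w i| = 1 → ∀ k i, i < T.N k →
      (∀ j ∈ T.ch k i, |∑ c, w c * (MM (M c) T (k + 1) j - MM (M c) T k i)| ≤ 3 * L) ∧
      q / 2 * L * T.len k i ≤ ∑ j ∈ T.ch k i, T.len (k + 1) j *
        (∑ c, w c * (MM (M c) T (k + 1) j - MM (M c) T k i)) ^ 2 := by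
    intro w hw k i hi
    obtain ⟨Q, hqQ, hQ1, hbv⟩ := hvar w hw
    obtain ⟨h1, h2⟩ := MM_moments hT (obs_combo hX (by linarith) w hw.le) (ε := q / 4) (by positivity) (by linarith)
      hQ1 hO hOL hbv k i hi
    have e : ∀ j, MM (fun p q => ∑ i, w i * M i p q) T (k + 1) j - MM (fun p q => ∑ i, w i * M i p q) T k i =
        ∑ c, w c * (MM (M c) T (k + 1) j - MM (M c) T k i) := by
      intro j
      unfold MM
      rw [← Finset.sum_sub_distrib]
      exact Finset.sum_congr rfl fun c _ => by ring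
    simp only [e] at h1 h2
    refine ⟨h1, ?_⟩
    have h3 := (abs_le.1 h2).1
    have h4 : 0 < L * T.len k i := mul_pos (by linarith) (Pool.Agent.Helper18.KD.len_pos T k hi)
    have h5 : q * (L * T.len k i) ≤ Q * (L * T.len k i) := mul_le_mul_of_nonneg_right hqQ h4.le
    nlinarith
  have hsingle : ∀ c : ι, ∑ i, |(Pi.single c (1 : ℝ) : ι → ℝ) i| = 1 := by
    intro c
    rw [Finset.sum_eq_single c]
    · simp
    · intro i _ hi
      rw [Pi.single_eq_of_ne hi, abs_zero]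
    · intro h; exact absurd (Finset.mem_univ c) h
  have hinc : ∀ k i, i < T.N k → ∀ j ∈ T.ch k i, ∀ c, |MM (M c) T (k + 1) j - MM (M c) T k i| ≤ 3 * L := by
    intro k i hi j hj c
    have h1 := (hmom (Pi.single c 1) (hsingle c) k i hi).1 j hj
    rw [Finset.sum_eq_single c] at h1
    · simpa using h1
    · intro i _ hi
      rw [Pi.single_eq_of_ne hi, zero_mul]
    · intro h; exact absurd (Finset.mem_univ c) h
  have hhi : ∀ k i, i < T.N k → T.len k i ≤ C₀ * Real.exp (-(k * (L * Real.log β₁))) := by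
    intro k i hi
    have h1 := (hsize (k * L) (T.t k i) (hTm k i hi.le) (T.t k (i + 1)) (hTm k (i + 1) hi) (T.lt k i hi)
      (hTi k i hi).1 (hTi k i hi).2).2
    rw [exp_size] at h1
    exact h1
  have h00 : ∀ c, |MM (M c) T 0 0| ≤ 3 * L := by
    intro c
    have h0 : (0 : ℕ) < T.N 0 := by rw [T.hN]; exact zero_lt_one
    have h1 := (hX c).osc 0 (T.t 0 0) (T.t 0 1) (hTm 0 0 h0.le).1 (T.lt 0 0 h0) (hTm 0 1 h0).2
      (by have := (hTi 0 0 h0).1; rwa [zero_mul] at this) (by have := (hTi 0 0 h0).2; rwa [zero_mul] at this)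
      (T.t 0 0) ⟨le_rfl, (T.lt 0 0 h0).le⟩
    unfold SX at h1
    rw [Finset.sum_range_zero, zero_sub, abs_neg] at h1
    show |M c (T.t 0 0) (T.t 0 1)| ≤ 3 * L
    linarith
  obtain ⟨R, hR⟩ := steer T (fun k i c => MM (M c) T k i) (B := 3 * L) (σ := q / 2 * L) (ℓ₁ := L * Real.log β₁)
    (C := C₀) (by positivity) (by positivity) (by nlinarith) (by positivity) hC₀ hhi (fun k i hi => T.ch_sum_len k hi)
    (fun k i hi c => MM_mean hT (hX c) k i hi) hinc h00 (fun k i hi w hw => (hmom w hw k i hi).2)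
  have e : 4 * (3 * (L : ℝ)) ^ 2 / (q / 2 * L) = 72 * L / q := by
    field_simp
    ring
  rw [e] at hR
  refine hR.trans (dimH_mono ?_)
  rintro x ⟨k₁, hx⟩
  have hxI : x ∈ Icc a b := by
    obtain ⟨i, hi, hxc, _⟩ := hx k₁ le_rfl
    exact ⟨(hTm k₁ i hi.le).1.trans hxc.1, hxc.2.trans (hTm k₁ (i + 1) hi).2⟩
  refine ⟨hxI, fun c => ⟨max (k₁ * L : ℕ) (R + O + L), fun N => ?_⟩⟩
  rcases lt_or_ge N (k₁ * L) with hN | hN
  · refine le_trans ?_ (le_max_left _ _)
    unfold SX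
    refine (Finset.abs_sum_le_sum_abs _ _).trans ((Finset.sum_le_sum fun n _ => (hX c).bd n x hxI).trans ?_)
    simp only [Finset.sum_const, Finset.card_range, nsmul_eq_mul, mul_one]
    exact_mod_cast hN.le
  · refine le_trans ?_ (le_max_right _ _)
    have hkN : k₁ ≤ N / L := (Nat.le_div_iff_mul_le (by omega)).2 hN
    obtain ⟨i, hi, hxc, hV⟩ := hx (N / L) hkN
    have h1 := (hX c).osc (N / L * L) (T.t (N / L) i) (T.t (N / L) (i + 1)) (hTm _ i hi.le).1 (T.lt _ i hi)
      (hTm _ (i + 1) hi).2 (hTi _ i hi).1 (hTi _ i hi).2 x hxc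
    have h2 : |MM (M c) T (N / L) i| ≤ R := hV c
    have h3 : SX (X c) N x = SX (X c) (N / L * L) x + ∑ n ∈ Finset.Ico (N / L * L) N, X c n x := by
      unfold SX
      rw [Finset.sum_range_add_sum_Ico _ (Nat.div_mul_le_self N L)]
    have h4 : |∑ n ∈ Finset.Ico (N / L * L) N, X c n x| ≤ L := by
      refine (Finset.abs_sum_le_sum_abs _ _).trans ((Finset.sum_le_sum fun n _ => (hX c).bd n x hxI).trans ?_)
      simp only [Finset.sum_const, Nat.card_Ico, nsmul_eq_mul, mul_one]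
      have : N - N / L * L ≤ L := by
        have h5 := Nat.div_add_mod N L
        have h6 := Nat.mod_lt N (show 0 < L by omega)
        rw [mul_comm] at h5
        omega
      exact_mod_cast this
    rw [h3]
    unfold MM at h2
    have h5 := abs_add_le (SX (X c) (N / L * L) x) (∑ n ∈ Finset.Ico (N / L * L) N, X c n x)
    have h6 : |SX (X c) (N / L * L) x| ≤ O + R := by
      have h7 : SX (X c) (N / L * L) x = (SX (X c) (N / L * L) x - M c (T.t (N / L) i) (T.t (N / L) (i + 1))) +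
        M c (T.t (N / L) i) (T.t (N / L) (i + 1)) := by ring
      rw [h7]
      exact (abs_add_le _ _).trans (add_le_add h1 h2)
    linarith

end Pool.Agent.Helper41.KD
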