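import Pool.Agent.Helper41.KD.Bounded

/-!
# Bounded deviations: Lipschitz functions
-/

set_option autoImplicit false

namespace Pool.Agent.Helper41.KD

open MeasureTheory Set Filter Topology
open Pool.Agent.Helper78.KD
open Pool.Agent.Helper44.KD (block_var)

theorem tendsto_dim {q c : ℝ} (hq : 0 < q) (hc : 0 < c) :
    Tendsto (fun L : ℕ => ENNReal.ofReal (1 - Real.log (72 * L / q) / (L * c))) atTop (𝓝 1) := by
  have h1 : Tendsto (fun y : ℝ => Real.log y / y) atTop (𝓝 0) :=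
    Real.isLittleO_log_id_atTop.tendsto_div_nhds_zero
  have h2 : Tendsto (fun L : ℕ => 72 * (L : ℝ) / q) atTop atTop := by
    have h3 : Tendsto (fun L : ℕ => (L : ℝ) * (72 / q)) atTop atTop :=
      tendsto_natCast_atTop_atTop.atTop_mul_const (by positivity)
    refine h3.congr fun L => ?_
    ring
  have h3 := ((h1.comp h2).mul_const (72 / (q * c))).const_sub 1
  rw [zero_mul, sub_zero] at h3
  have h4 := (ENNReal.continuous_ofReal.tendsto 1).comp h3
  rw [ENNReal.ofReal_one] at h4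
  refine h4.congr' ?_
  filter_upwards [eventually_gt_atTop 0] with L hL
  have hL' : (0 : ℝ) < L := by exact_mod_cast hL
  simp only [Function.comp_apply]
  congr 2
  field_simp

section

variable {ι : Type} [Fintype ι]

/-- normalised functions with a lower bound for the second moments of the combinations -/
theorem bdd_loc {γ : ℕ → ℝ} (hγ : ∀ d, 1 ≤ d → Irrational (γ d)) {β K : ℝ} (hβ : 1 < β) (hK : 1 ≤ K)
    (φ : ι → ℝ → ℝ) (hper : ∀ i t, φ i (t + 1) = φ i t) (hbd : ∀ i t, |φ i t| ≤ 1)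
    (hlip : ∀ i s t, |φ i s - φ i t| ≤ K * |s - t|) (hmean : ∀ i, ∫ t in (0 : ℝ)..1, φ i t = 0)
    {q : ℝ} (hq : 0 < q) (hq1 : q ≤ 1)
    (hq2 : ∀ w : ι → ℝ, ∑ i, |w i| = 1 → q ≤ ∫ t in (0 : ℝ)..1, (∑ i, w i * φ i t) ^ 2) :
    ∃ (D : ℕ) (τ : ℝ), 0 < τ ∧ ∀ (U : ℕ → ℝ → ℝ) (G : Set ℝ) (β₁ β₂ : ℝ), β ≤ β₁ → LocFam U G γ D τ β₁ β₂ →
      ∀ O : Set ℝ, IsOpen O → O.Nonempty → O ⊆ G →
      1 ≤ dimH {x | x ∈ O ∧ ∀ i, ∃ B : ℝ, ∀ N : ℕ, |S (φ i) U N x| ≤ B} := by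
  have hcont : ∀ i, Continuous (φ i) := fun i => (lip_cls hK (hper i) (hbd i) (hlip i) (hmean i)).cont
  have hcls : ∀ w : ι → ℝ, ∑ i, |w i| = 1 → Cls (fun t => ∑ i, w i * φ i t) K K := by
    intro w hw
    refine lip_cls hK (fun t => ?_) (fun t => ?_) (fun s t => ?_) ?_
    · exact Finset.sum_congr rfl fun i _ => by rw [hper]
    · refine (Finset.abs_sum_le_sum_abs _ _).trans ?_
      rw [← hw]
      refine Finset.sum_le_sum fun i _ => ?_
      rw [abs_mul]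
      exact mul_le_of_le_one_right (abs_nonneg _) (hbd i t)
    · rw [← Finset.sum_sub_distrib]
      refine (Finset.abs_sum_le_sum_abs _ _).trans ?_
      calc ∑ i, |w i * φ i s - w i * φ i t| ≤ ∑ i, |w i| * (K * |s - t|) := by
            refine Finset.sum_le_sum fun i _ => ?_
            rw [← mul_sub, abs_mul]
            exact mul_le_mul_of_nonneg_left (hlip i s t) (abs_nonneg _)
        _ = K * |s - t| := by rw [← Finset.sum_mul, hw, one_mul]
    · rw [intervalIntegral.integral_finsetSum (fun i _ => ((hcont i).intervalIntegrable _ _).const_mul _)]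
      refine Finset.sum_eq_zero fun i _ => ?_
      rw [intervalIntegral.integral_const_mul, hmean, mul_zero]
  obtain ⟨C, hC1, hobs⟩ := obs_of_cls hβ
  obtain ⟨D, τ, κ, L₀, hτ, hκ, hbv⟩ := block_var hγ hβ (by linarith : (0 : ℝ) ≤ K) (ε := q / 4) (by positivity)
  refine ⟨D, τ, hτ, fun U G β₁ β₂ hββ hloc O hO hne hOG => ?_⟩
  have hβ₁ : 1 < β₁ := hβ.trans_le hββ
  set OO : ℝ := C * (1 + Real.log K) with hOO
  have hOO1 : 1 ≤ OO := by
    have := Real.log_nonneg hK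
    rw [hOO]
    nlinarith
  refine le_of_tendsto (tendsto_dim hq (Real.log_pos hβ₁)) ?_
  filter_upwards [eventually_ge_atTop L₀, eventually_ge_atTop 1,
    eventually_ge_atTop ⌈384 * OO ^ 2 / (q / 4) ^ 2⌉₊] with L hL₀ hL1 hLc
  obtain ⟨x, hx⟩ := hne
  obtain ⟨n₀, v, a, b, hxab, hsub, hF, hR, hD⟩ := hloc x (hOG hx) O (hO.mem_nhds hx) L κ hκ
  have hOL : 384 * OO ^ 2 ≤ (q / 4) ^ 2 * L := by
    have h1 : 384 * OO ^ 2 / (q / 4) ^ 2 ≤ L := (Nat.le_ceil _).trans (by exact_mod_cast hLc)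
    rw [div_le_iff₀ (by positivity)] at h1
    linarith
  have h := bdd_family (ι := ι) (u := fun n => U (n + n₀)) (a := a) (b := b)
    (X := fun i n y => φ i (U (n + n₀) y)) (M := fun i => Mv (φ i) (fun n => U (n + n₀))) hF hL1
    (fun i => hobs _ v a b β₁ β₂ hββ hF (φ i) K K (lip_cls hK (hper i) (hbd i) (hlip i) (hmean i)))
    hOO1 hq hq1 hOL (fun w hw => ⟨_, hq2 w hw, sq_int_le (hcls w hw),
      hbv _ v a b β₁ β₂ hββ hF hR L hL₀ hD _ _ (hcls w hw)⟩)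
  refine h.trans (dimH_mono ?_)
  rintro y ⟨hy, hB⟩
  refine ⟨hsub hy, fun i => ?_⟩
  obtain ⟨B, hB'⟩ := hB i
  refine ⟨B + n₀, fun N => ?_⟩
  rcases lt_or_ge N n₀ with hN | hN
  · have h1 := S_bd (hbd i) U N y
    have h2 := (abs_nonneg _).trans (hB' 0)
    have h3 : (N : ℝ) ≤ n₀ := by exact_mod_cast hN.le
    linarith
  · obtain ⟨N', rfl⟩ : ∃ N', N = n₀ + N' := ⟨N - n₀, by omega⟩
    rw [S_shift]
    have h1 := S_bd (hbd i) U n₀ y
    have h2 := hB' N'
    unfold SX at h2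
    have h3 := abs_add_le (S (φ i) U n₀ y) (S (φ i) (fun n => U (n + n₀)) N' y)
    have h4 : |S (φ i) (fun n => U (n + n₀)) N' y| ≤ B := h2
    linarith

/-- linearly independent continuous functions: the second moments of the combinations are bounded below -/
theorem gram {φ : ι → ℝ → ℝ} (hcont : ∀ i, Continuous (φ i)) (hper : ∀ i t, φ i (t + 1) = φ i t)
    (hli : LinearIndependent ℝ φ) :
    ∃ q : ℝ, 0 < q ∧ ∀ w : ι → ℝ, ∑ i, |w i| = 1 → q ≤ ∫ t in (0 : ℝ)..1, (∑ i, w i * φ i t) ^ 2 := by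
  set E : Set (ι → ℝ) := {w | ∑ i, |w i| = 1} with hE
  have hEc : IsCompact E := by
    refine (isCompact_closedBall (0 : ι → ℝ) 1).of_isClosed_subset ?_ ?_
    · exact isClosed_eq (by fun_prop) continuous_const
    · intro w hw
      rw [mem_closedBall_zero_iff, pi_norm_le_iff_of_nonneg zero_le_one]
      intro i
      rw [Real.norm_eq_abs]
      have h1 : |w i| ≤ ∑ j, |w j| := Finset.single_le_sum (f := fun j => |w j|) (fun j _ => abs_nonneg _) (Finset.mem_univ i)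
      have h2 : ∑ j, |w j| = 1 := hw
      linarith
  have hfc : Continuous (fun w : ι → ℝ => ∫ t in (0 : ℝ)..1, (∑ i, w i * φ i t) ^ 2) := by
    refine intervalIntegral.continuous_parametric_intervalIntegral_of_continuous' ?_ 0 1
    refine Continuous.pow ?_ 2
    refine continuous_finsetSum _ fun i _ => ?_
    exact ((continuous_apply i).comp continuous_fst).mul ((hcont i).comp continuous_snd)
  rcases E.eq_empty_or_nonempty with hempty | hne
  · refine ⟨1, one_pos, fun w hw => ?_⟩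
    have : w ∈ E := hw
    rw [hempty] at this
    exact absurd this (notMem_empty w)
  obtain ⟨w₀, hw₀, hmin⟩ := hEc.exists_isMinOn hne hfc.continuousOn
  refine ⟨_, ?_, fun w hw => hmin hw⟩
  -- positivity
  have hne0 : ∃ t, ∑ i, w₀ i * φ i t ≠ 0 := by
    by_contra hcon
    push Not at hcon
    have h1 : ∑ i, w₀ i • φ i = 0 := by
      funext t
      rw [Finset.sum_apply]
      simpa using hcon t
    have h2 := Fintype.linearIndependent_iff.1 hli w₀ h1
    have h3 : ∑ i, |w₀ i| = 1 := hw₀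
    rw [Finset.sum_eq_zero fun i _ => by rw [h2 i, abs_zero]] at h3
    exact zero_ne_one h3
  obtain ⟨t, ht⟩ := hne0
  have hP : Function.Periodic (fun t => ∑ i, w₀ i * φ i t) 1 := fun t =>
    Finset.sum_congr rfl fun i _ => by rw [hper]
  have hfr : (∑ i, w₀ i * φ i (Int.fract t)) = ∑ i, w₀ i * φ i t := by
    have h1 := hP.sub_int_mul_eq (x := t) ⌊t⌋
    rw [mul_one] at h1
    exact h1
  have hsc : Continuous (fun t => (∑ i, w₀ i * φ i t) ^ 2) := by
    refine Continuous.pow ?_ 2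
    exact continuous_finsetSum _ fun i _ => continuous_const.mul (hcont i)
  refine intervalIntegral.integral_pos zero_lt_one hsc.continuousOn (fun x _ => sq_nonneg _)
    ⟨Int.fract t, ⟨Int.fract_nonneg t, (Int.fract_lt_one t).le⟩, ?_⟩
  rw [hfr]
  positivity

end

/-- finitely many Lipschitz functions with mean zero -/
theorem bdd_lip {ι : Type} [Finite ι] {γ : ℕ → ℝ} (hγ : ∀ d, 1 ≤ d → Irrational (γ d)) {β : ℝ} (hβ : 1 < β)
    (φ : ι → ℝ → ℝ) (hper : ∀ i t, φ i (t + 1) = φ i t)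
    (hlip : ∀ i, ∃ K : ℝ, ∀ s t, |φ i s - φ i t| ≤ K * |s - t|) (hmean : ∀ i, ∫ t in (0 : ℝ)..1, φ i t = 0) :
    ∃ (D : ℕ) (τ : ℝ), 0 < τ ∧ ∀ (U : ℕ → ℝ → ℝ) (G : Set ℝ) (β₁ β₂ : ℝ), β ≤ β₁ → LocFam U G γ D τ β₁ β₂ →
      ∀ O : Set ℝ, IsOpen O → O.Nonempty → O ⊆ G →
      1 ≤ dimH {x | x ∈ O ∧ ∀ i, ∃ B : ℝ, ∀ N : ℕ, |∑ n ∈ Finset.range N, φ i (U n x)| ≤ B} := by
  classical
  obtain ⟨κ, a, ha, hspan, hli⟩ := exists_linearIndependent' ℝ φ
  have hfin : Finite κ := Finite.of_injective a ha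
  have := Fintype.ofFinite κ
  choose Kf hKf using hlip
  have hKf' : ∀ i s t, |φ i s - φ i t| ≤ |Kf i| * |s - t| := fun i s t =>
    (hKf i s t).trans (mul_le_mul_of_nonneg_right (le_abs_self _) (abs_nonneg _))
  have hcont : ∀ i, Continuous (φ i) := by
    intro i
    have h1 : LipschitzWith (Real.toNNReal |Kf i|) (φ i) := by
      refine LipschitzWith.of_dist_le_mul fun s t => ?_
      rw [Real.dist_eq, Real.dist_eq, Real.coe_toNNReal _ (abs_nonneg _)]
      exact hKf' i s t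
    exact h1.continuous
  set K : ℝ := 1 + ∑ j : κ, |Kf (a j)| with hK
  have hK1 : 1 ≤ K := by
    have : 0 ≤ ∑ j : κ, |Kf (a j)| := Finset.sum_nonneg fun j _ => abs_nonneg _
    linarith
  have hKj : ∀ j : κ, |Kf (a j)| ≤ K := by
    intro j
    have h1 : |Kf (a j)| ≤ ∑ l : κ, |Kf (a l)| :=
      Finset.single_le_sum (f := fun l => |Kf (a l)|) (fun l _ => abs_nonneg _) (Finset.mem_univ j)
    linarith
  set C : ℝ := 1 + ∑ j : κ, (|φ (a j) 0| + |Kf (a j)|) with hC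
  have hC1 : 1 ≤ C := by
    have : 0 ≤ ∑ j : κ, (|φ (a j) 0| + |Kf (a j)|) := Finset.sum_nonneg fun j _ => by positivity
    linarith
  have hC0 : 0 < C := by linarith
  have hCj : ∀ (j : κ) (t : ℝ), |φ (a j) t| ≤ C := by
    intro j t
    have hP : Function.Periodic (φ (a j)) 1 := hper (a j)
    have h1 := hP.sub_int_mul_eq (x := t) ⌊t⌋
    rw [mul_one] at h1
    have h2 := hKf' (a j) (t - ⌊t⌋) 0
    rw [h1, sub_zero] at h2
    have h3 : |t - ⌊t⌋| ≤ 1 := by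
      have h4 : t - ⌊t⌋ = Int.fract t := rfl
      rw [h4, abs_of_nonneg (Int.fract_nonneg t)]
      exact (Int.fract_lt_one t).le
    have h5 : |φ (a j) t| ≤ |φ (a j) 0| + |Kf (a j)| := by
      have h6 := abs_sub_abs_le_abs_sub (φ (a j) t) (φ (a j) 0)
      have h7 : |Kf (a j)| * |t - ⌊t⌋| ≤ |Kf (a j)| := mul_le_of_le_one_right (abs_nonneg _) h3
      linarith
    have h8 : |φ (a j) 0| + |Kf (a j)| ≤ ∑ l : κ, (|φ (a l) 0| + |Kf (a l)|) :=
      Finset.single_le_sum (f := fun l => |φ (a l) 0| + |Kf (a l)|) (fun l _ => by positivity) (Finset.mem_univ j)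
    linarith
  obtain ⟨q₀, hq₀, hq₀'⟩ := gram (φ := φ ∘ a) (fun j => hcont _) (fun j t => hper _ t) hli
  set ψ : κ → ℝ → ℝ := fun j t => φ (a j) t / C with hψ
  obtain ⟨D, τ, hτ, h⟩ := bdd_loc (ι := κ) hγ hβ hK1 ψ (fun j t => by simp only [hψ, hper])
    (fun j t => by
      simp only [hψ]
      rw [abs_div, abs_of_pos hC0, div_le_one hC0]
      exact hCj j t)
    (fun j s t => by
      simp only [hψ]
      rw [← sub_div, abs_div, abs_of_pos hC0, div_le_iff₀ hC0]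
      have h1 := (hKf' (a j) s t).trans (mul_le_mul_of_nonneg_right (hKj j) (abs_nonneg (s - t)))
      have h2 : 0 ≤ K * |s - t| := by positivity
      nlinarith)
    (fun j => by
      simp only [hψ]
      rw [intervalIntegral.integral_div, hmean, zero_div])
    (q := min 1 (q₀ / C ^ 2)) (by positivity) (min_le_left _ _) (fun w hw => by
      refine (min_le_right _ _).trans ?_
      have h1 := hq₀' w hw
      have h2 : ∫ t in (0 : ℝ)..1, (∑ i, w i * ψ i t) ^ 2 = (∫ t in (0 : ℝ)..1, (∑ i, w i * (φ ∘ a) i t) ^ 2) / C ^ 2 := by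
        rw [← intervalIntegral.integral_div]
        refine intervalIntegral.integral_congr fun t _ => ?_
        simp only [hψ, Function.comp_apply]
        rw [← div_pow, Finset.sum_div]
        congr 1
        exact Finset.sum_congr rfl fun i _ => by ring
      rw [h2]
      exact div_le_div_of_nonneg_right h1 (by positivity))
  refine ⟨D, τ, hτ, fun U G β₁ β₂ hββ hloc O hO hne hOG => ?_⟩
  refine (h U G β₁ β₂ hββ hloc O hO hne hOG).trans (dimH_mono ?_)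
  rintro x ⟨hx, hB⟩
  refine ⟨hx, fun i => ?_⟩
  have hmem : φ i ∈ Submodule.span ℝ (Set.range (φ ∘ a)) := by
    rw [hspan]
    exact Submodule.subset_span ⟨i, rfl⟩
  refine Submodule.span_induction (p := fun f _ => ∃ B : ℝ, ∀ N : ℕ, |∑ n ∈ Finset.range N, f (U n x)| ≤ B)
    ?_ ?_ ?_ ?_ hmem
  · rintro f ⟨j, rfl⟩
    obtain ⟨B, hB'⟩ := hB j
    refine ⟨C * B, fun N => ?_⟩
    have h1 := hB' N
    unfold S at h1
    simp only [hψ] at h1
    rw [← Finset.sum_div, abs_div, abs_of_pos hC0, div_le_iff₀ hC0] at h1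
    simp only [Function.comp_apply]
    linarith
  · exact ⟨0, fun N => by simp⟩
  · rintro f g _ _ ⟨B, hB'⟩ ⟨B'', hB''⟩
    refine ⟨B + B'', fun N => ?_⟩
    simp only [Pi.add_apply, Finset.sum_add_distrib]
    exact (abs_add_le _ _).trans (add_le_add (hB' N) (hB'' N))
  · rintro r f _ ⟨B, hB'⟩
    refine ⟨|r| * B, fun N => ?_⟩
    simp only [Pi.smul_apply, smul_eq_mul]
    rw [← Finset.mul_sum, abs_mul]
    exact mul_le_mul_of_nonneg_left (hB' N) (abs_nonneg _)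

theorem dimH_le_one (s : Set ℝ) : dimH s ≤ 1 := by
  rw [← Real.dimH_univ]
  exact dimH_mono (subset_univ s)

/-- powers: bounded deviations on a set of full dimension in every interval -/
theorem bounded_pow {ι : Type} [Finite ι] (φ : ι → ℝ → ℝ) (hper : ∀ i t, φ i (t + 1) = φ i t)
    (hlip : ∀ i, ∃ K : ℝ, ∀ s t, |φ i s - φ i t| ≤ K * |s - t|) (hmean : ∀ i, ∫ t in (0 : ℝ)..1, φ i t = 0)
    {O : Set ℝ} (hO : IsOpen O) (hne : (O ∩ Ioi 1).Nonempty) {A : ℝ} (hA : 0 < A) (c : ℕ → ℝ) :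
    dimH {x | x ∈ O ∧ ∀ i, ∃ B : ℝ, ∀ N : ℕ, |∑ n ∈ Finset.range N, φ i (A * x ^ (n + 1) + c n)| ≤ B} = 1 := by
  refine le_antisymm (dimH_le_one _) ?_
  have hO' : IsOpen (O ∩ Ioi 1) := hO.inter isOpen_Ioi
  obtain ⟨x₀, hx₀O, hx₀t⟩ := (Algebraic.countable ℚ ℝ).dense_compl ℝ |>.inter_open_nonempty _ hO' hne
  have hx₀ : 1 < x₀ := hx₀O.2
  have hirr : ∀ d, 1 ≤ d → Irrational (x₀ ^ d) := fun d hd => Pool.Agent.Helper18.KD.irr_of_transcendental hx₀t d hd
  obtain ⟨β₁, β₂, hb1, hb2, hb3, _, _⟩ := choose_bases hx₀ (η := 1 / 2) (by norm_num) (by norm_num)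
  obtain ⟨D, τ, hτ, h⟩ := bdd_lip hirr hb1 φ hper hlip hmean
  obtain ⟨ρ₀, hρ₀, hinst⟩ := Pool.Agent.Helper80.KD.inst_pow hx₀ hb1 hb2 hb3 hτ D
  have h1 := h _ _ β₁ β₂ le_rfl (hinst A hA c) ((O ∩ Ioi 1) ∩ Ioo (x₀ - ρ₀) (x₀ + ρ₀)) (hO'.inter isOpen_Ioo)
    ⟨x₀, hx₀O, by constructor <;> linarith⟩ inter_subset_right
  refine h1.trans (dimH_mono ?_)
  rintro x ⟨hx, hB⟩
  exact ⟨hx.1.1, hB⟩

/-- multiples of the powers of a base all of whose powers are irrational -/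
theorem bounded_mul {ι : Type} [Finite ι] (φ : ι → ℝ → ℝ) (hper : ∀ i t, φ i (t + 1) = φ i t)
    (hlip : ∀ i, ∃ K : ℝ, ∀ s t, |φ i s - φ i t| ≤ K * |s - t|) (hmean : ∀ i, ∫ t in (0 : ℝ)..1, φ i t = 0)
    {x₀ : ℝ} (hx₀ : 1 < x₀) (hirr : ∀ d : ℕ, 1 ≤ d → Irrational (x₀ ^ d))
    {O : Set ℝ} (hO : IsOpen O) (hne : O.Nonempty) (c : ℕ → ℝ) :
    dimH {x | x ∈ O ∧ ∀ i, ∃ B : ℝ, ∀ N : ℕ, |∑ n ∈ Finset.range N, φ i (x * x₀ ^ (n + 1) + c n)| ≤ B} = 1 := by
  refine le_antisymm (dimH_le_one _) ?_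
  obtain ⟨β₁, β₂, hb1, hb2, hb3, _, _⟩ := choose_bases hx₀ (η := 1 / 2) (by norm_num) (by norm_num)
  obtain ⟨D, τ, hτ, h⟩ := bdd_lip hirr hb1 φ hper hlip hmean
  exact h _ _ β₁ β₂ le_rfl (Pool.Agent.Helper80.KD.inst_mul hx₀ hb1 hb2 hb3 hτ D c) O hO hne (subset_univ _)

end Pool.Agent.Helper41.KD
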