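import Pool.Agent.Helper41.KD.Bonnet

/-!
# Integrals of periodic functions along a family
-/

set_option autoImplicit false

namespace Pool.Agent.Helper41.KD

open MeasureTheory Set Filter Topology
open Pool.Agent.Helper78.KD

/-- integral of a periodic function with mean zero bounded by one -/
theorem per_bound {ψ : ℝ → ℝ} (hψ : Continuous ψ) (hper : ∀ t, ψ (t + 1) = ψ t) (hbd : ∀ t, |ψ t| ≤ 1)
    (hmean : ∫ t in (0 : ℝ)..1, ψ t = 0) (x y : ℝ) : |∫ t in x..y, ψ t| ≤ 1 := by
  have hP : Function.Periodic ψ 1 := hper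
  set n : ℤ := ⌊y - x⌋ with hn
  have hi : ∀ s t : ℝ, IntervalIntegrable ψ volume s t := fun s t => hψ.intervalIntegrable s t
  have h1 : ∫ t in x..(x + n), ψ t = 0 := by
    have h := hP.intervalIntegral_add_zsmul_eq n x (fun s t => hi s t)
    have h2 := hP.intervalIntegral_add_eq x 0
    simp only [zero_add] at h2
    rw [h2, hmean, smul_zero] at h
    simpa using h
  have h3 : ∫ t in x..y, ψ t = ∫ t in (x + n)..y, ψ t := by
    rw [← intervalIntegral.integral_add_adjacent_intervals (hi x (x + n)) (hi (x + n) y), h1, zero_add]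
  rw [h3]
  have h4 := intervalIntegral.norm_integral_le_of_norm_le_const (f := ψ) (a := x + n) (b := y) (C := 1)
    (fun t _ => hbd t)
  rw [Real.norm_eq_abs, one_mul] at h4
  refine h4.trans ?_
  rw [abs_le]
  constructor <;> nlinarith [Int.floor_le (y - x), Int.lt_floor_add_one (y - x)]

/-- integrals of periodic functions with mean zero -/
theorem int_bound {u v : ℕ → ℝ → ℝ} {a b β₁ β₂ : ℝ} (hF : Fam u v a b β₁ β₂) {ψ : ℝ → ℝ} (hψ : Continuous ψ)
    (hper : ∀ t, ψ (t + 1) = ψ t) (hbd : ∀ t, |ψ t| ≤ 1) (hmean : ∫ t in (0 : ℝ)..1, ψ t = 0) (n : ℕ) {p q : ℝ}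
    (hp : a ≤ p) (hpq : p ≤ q) (hq : q ≤ b) : |∫ x in p..q, ψ (u n x)| ≤ 1 / v n p := by
  have hsub : Icc p q ⊆ Icc a b := Icc_subset_Icc hp hq
  have huc : ContinuousOn (u n) (Icc p q) := fun x hx => (hF.deriv n x (hsub hx)).continuousAt.continuousWithinAt
  have hvc : ContinuousOn (v n) (Icc p q) := (hF.cont n).mono hsub
  have hg : ContinuousOn (fun x => ψ (u n x) * v n x) (Icc p q) :=
    (hψ.comp_continuousOn huc).mul hvc
  have hf : AntitoneOn (fun x => 1 / v n x) (Icc p q) := fun x hx y hy hxy =>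
    one_div_le_one_div_of_le (hF.pos n x (hsub hx)) (hF.mono n (hsub hx) (hsub hy) hxy)
  have hf0 : 0 ≤ 1 / v n q := (one_div_pos.2 (hF.pos n q (hsub ⟨hpq, le_rfl⟩))).le
  have hc : ∀ x ∈ Icc p q, |∫ y in p..x, ψ (u n y) * v n y| ≤ 1 := by
    intro x hx
    have h1 : ∫ y in p..x, ψ (u n y) * v n y = ∫ t in (u n p)..(u n x), ψ t := by
      have h2 := intervalIntegral.integral_comp_mul_deriv' (f := u n) (f' := v n) (g := ψ) (a := p) (b := x)
        (fun y hy => by
          rw [uIcc_of_le hx.1] at hy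
          exact hF.deriv n y (hsub ⟨hy.1, hy.2.trans hx.2⟩))
        (by
          rw [uIcc_of_le hx.1]
          exact hvc.mono (Icc_subset_Icc le_rfl hx.2))
        (hψ.continuousOn)
      simpa [Function.comp] using h2
    rw [h1]
    exact per_bound hψ hper hbd hmean _ _
  have h := bonnet hpq hf hf0 hg hc
  have e1 : ∫ x in p..q, ψ (u n x) = ∫ x in p..q, 1 / v n x * (ψ (u n x) * v n x) := by
    refine intervalIntegral.integral_congr fun x hx => ?_
    rw [uIcc_of_le hpq] at hx
    have h5 := hF.pos n x (hsub hx)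
    field_simp
  rw [e1]
  simpa using h

end Pool.Agent.Helper41.KD
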