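import Pool.Agent.Helper41.KD.Int

/-!
# The mean of the whole series over an interval
-/

set_option autoImplicit false

namespace Pool.Agent.Helper41.KD

open MeasureTheory Set Filter Topology
open Pool.Agent.Helper78.KD

theorem Cls.per {φ : ℝ → ℝ} {V K : ℝ} (hφ : Cls φ V K) (t : ℝ) : φ (t + 1) = φ t := by
  obtain ⟨s₁, s₂, h1, h2, h, e⟩ := hφ.lift
  rw [e, e, h1.2, h2.2]
  ring

theorem Cls.cont {φ : ℝ → ℝ} {V K : ℝ} (hφ : Cls φ V K) : Continuous φ := by
  have hK : 0 ≤ K := zero_le_one.trans hφ.hK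
  have : LipschitzWith (Real.toNNReal K) φ := by
    refine LipschitzWith.of_dist_le_mul fun s t => ?_
    rw [Real.dist_eq, Real.dist_eq, Real.coe_toNNReal K hK]
    exact hφ.lip s t
  exact this.continuous

/-- growth of the derivatives over several steps -/
theorem Fam.pow_le {u v : ℕ → ℝ → ℝ} {a b β₁ β₂ : ℝ} (hF : Fam u v a b β₁ β₂) {x : ℝ} (hx : x ∈ Icc a b) (n d : ℕ) :
    β₁ ^ d * v n x ≤ v (n + d) x := by
  induction d with
  | zero => simp
  | succ d ih =>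
    have h0 : 0 ≤ β₁ := zero_le_one.trans hF.hβ.le
    calc β₁ ^ (d + 1) * v n x = β₁ * (β₁ ^ d * v n x) := by ring
      _ ≤ β₁ * v (n + d) x := mul_le_mul_of_nonneg_left ih h0
      _ ≤ v (n + d + 1) x := (hF.growth (n + d) x hx).1

/-- single terms -/
theorem term_bound {u v : ℕ → ℝ → ℝ} {a b β₁ β₂ : ℝ} (hF : Fam u v a b β₁ β₂) {φ : ℝ → ℝ} {V K : ℝ} (hφ : Cls φ V K)
    {p q : ℝ} (hp : a ≤ p) (hpq : p ≤ q) (hq : q ≤ b) (n d : ℕ) :
    |∫ x in p..q, φ (u (n + d) x)| ≤ (1 / β₁) ^ d * (1 / v n p) := by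
  have hpm : p ∈ Icc a b := ⟨hp, hpq.trans hq⟩
  have h1 := int_bound hF (Cls.cont hφ) (Cls.per hφ) hφ.bd hφ.mean (n + d) hp hpq hq
  have h2 := Fam.pow_le hF hpm n d
  have h3 := hF.pos n p hpm
  have hβ : 0 < β₁ := zero_lt_one.trans hF.hβ
  refine h1.trans ?_
  rw [one_div_pow, one_div_mul_one_div]
  exact one_div_le_one_div_of_le (by positivity) h2

theorem summable_int {u v : ℕ → ℝ → ℝ} {a b β₁ β₂ : ℝ} (hF : Fam u v a b β₁ β₂) {φ : ℝ → ℝ} {V K : ℝ} (hφ : Cls φ V K)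
    {p q : ℝ} (hp : a ≤ p) (hpq : p ≤ q) (hq : q ≤ b) : Summable (fun n : ℕ => ∫ x in p..q, φ (u n x)) := by
  have hβ : 1 < β₁ := hF.hβ
  have hs : Summable (fun d : ℕ => (1 / β₁) ^ d * (1 / v 0 p)) :=
    (summable_geometric_of_lt_one (by positivity) ((div_lt_one (by linarith)).2 hβ)).mul_right _
  refine Summable.of_norm_bounded hs fun n => ?_
  have h := term_bound hF hφ hp hpq hq 0 n
  rw [zero_add] at h
  exact h

theorem mul_Mv {u : ℕ → ℝ → ℝ} {φ : ℝ → ℝ} {p q : ℝ} (hpq : p < q) :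
    (q - p) * Mv φ u p q = ∑' n : ℕ, ∫ x in p..q, φ (u n x) := by
  have h0 : q - p ≠ 0 := (sub_pos.2 hpq).ne'
  unfold Mv
  rw [← tsum_mul_left]
  refine tsum_congr fun n => ?_
  field_simp

theorem Mv_add {u v : ℕ → ℝ → ℝ} {a b β₁ β₂ : ℝ} (hF : Fam u v a b β₁ β₂) {φ : ℝ → ℝ} {V K : ℝ} (hφ : Cls φ V K)
    (t : ℕ → ℝ) (m : ℕ) (ht : ∀ i < m, t i < t (i + 1)) (h0 : a ≤ t 0) (hm : t m ≤ b) (hm1 : 1 ≤ m) :
    ∑ i ∈ Finset.range m, (t (i + 1) - t i) * Mv φ u (t i) (t (i + 1)) = (t m - t 0) * Mv φ u (t 0) (t m) := by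
  have hmono : ∀ i j, i ≤ j → j ≤ m → t i ≤ t j := by
    intro i j hij
    induction hij with
    | refl => intro _; exact le_rfl
    | @step k _ ih =>
      intro hk
      exact (ih (by omega)).trans (ht k (by omega)).le
  have hlt : t 0 < t m := (ht 0 (by omega)).trans_le (hmono 1 m hm1 le_rfl)
  rw [mul_Mv hlt]
  have h1 : ∀ i ∈ Finset.range m, (t (i + 1) - t i) * Mv φ u (t i) (t (i + 1)) =
      ∑' n : ℕ, ∫ x in (t i)..(t (i + 1)), φ (u n x) := fun i hi => mul_Mv (ht i (Finset.mem_range.1 hi))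
  rw [Finset.sum_congr rfl h1, ← Summable.tsum_finsetSum]
  · refine tsum_congr fun n => ?_
    refine intervalIntegral.sum_integral_adjacent_intervals fun i hi => ?_
    have hi1 : a ≤ t i := h0.trans (hmono 0 i (Nat.zero_le _) (by omega))
    have hi2 : t (i + 1) ≤ b := (hmono (i + 1) m (by omega) le_rfl).trans hm
    refine ContinuousOn.intervalIntegrable ?_
    rw [uIcc_of_le (ht i hi).le]
    refine (Cls.cont hφ).comp_continuousOn fun x hx => ?_
    exact (hF.deriv n x ⟨hi1.trans hx.1, hx.2.trans hi2⟩).continuousAt.continuousWithinAt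
  · intro i hi
    have hi' := Finset.mem_range.1 hi
    exact summable_int hF hφ (h0.trans (hmono 0 i (Nat.zero_le _) (by omega))) (ht i hi').le
      ((hmono (i + 1) m (by omega) le_rfl).trans hm)

end Pool.Agent.Helper41.KD
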