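import Pool.Agent.Helper41.KD.Mv

/-!
# Oscillation of the sum about the mean of the whole series
-/

set_option autoImplicit false

namespace Pool.Agent.Helper41.KD

open MeasureTheory Set Filter Topology
open Pool.Agent.Helper78.KD

/-- mean value theorem for a family -/
theorem Fam.mvt {u v : ℕ → ℝ → ℝ} {a b β₁ β₂ : ℝ} (hF : Fam u v a b β₁ β₂) (j : ℕ) {x y : ℝ} (hx : a ≤ x)
    (hxy : x ≤ y) (hy : y ≤ b) : v j x * (y - x) ≤ u j y - u j x ∧ u j y - u j x ≤ v j y * (y - x) := by
  rcases hxy.eq_or_lt with h | h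
  · subst h
    simp
  · have hsub : Icc x y ⊆ Icc a b := Icc_subset_Icc hx hy
    obtain ⟨c, hc, e⟩ := exists_hasDerivAt_eq_slope (u j) (v j) h
      (fun z hz => (hF.deriv j z (hsub hz)).continuousAt.continuousWithinAt)
      (fun z hz => hF.deriv j z (hsub ⟨hz.1.le, hz.2.le⟩))
    have hpos : 0 < y - x := sub_pos.2 h
    have e1 : u j y - u j x = v j c * (y - x) := by
      rw [e]
      field_simp
    have hcm : c ∈ Icc a b := hsub ⟨hc.1.le, hc.2.le⟩
    rw [e1]
    exact ⟨mul_le_mul_of_nonneg_right (hF.mono j (hsub ⟨le_rfl, hxy⟩) hcm hc.1.le) hpos.le,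
      mul_le_mul_of_nonneg_right (hF.mono j hcm (hsub ⟨hxy, le_rfl⟩) hc.2.le) hpos.le⟩

/-- sum of the truncated geometric series -/
theorem geom_min {β K : ℝ} (hβ : 1 < β) (hK : 1 ≤ K) (n : ℕ) :
    ∑ i ∈ Finset.range n, min 2 (4 * K * (1 / β) ^ (i + 1)) ≤ 2 + 2 / Real.log β * Real.log K + 4 / (β - 1) := by
  have hβ0 : 0 < β := zero_lt_one.trans hβ
  have hlβ : 0 < Real.log β := Real.log_pos hβ
  have hlK : 0 ≤ Real.log K := Real.log_nonneg hK
  have hK0 : 0 < K := zero_lt_one.trans_le hK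
  set m : ℕ := ⌈Real.log K / Real.log β⌉₊ with hm
  have hm1 : Real.log K / Real.log β ≤ m := Nat.le_ceil _
  have hm2 : (m : ℝ) < Real.log K / Real.log β + 1 := Nat.ceil_lt_add_one (by positivity)
  have hKm : K * (1 / β) ^ m ≤ 1 := by
    rw [one_div_pow, mul_one_div, div_le_one (by positivity)]
    rw [← Real.log_le_log_iff hK0 (by positivity), Real.log_pow]
    rwa [div_le_iff₀ hlβ] at hm1
  have hr0 : 0 ≤ 1 / β := by positivity
  have hr1 : 1 / β < 1 := (div_lt_one hβ0).2 hβ
  have hgeo : ∀ k : ℕ, ∑ i ∈ Finset.range k, (1 / β) ^ (i + 1) ≤ 1 / (β - 1) := by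
    intro k
    have h1 : ∑ i ∈ Finset.range k, (1 / β) ^ (i + 1) = (1 / β) * ∑ i ∈ Finset.range k, (1 / β) ^ i := by
      rw [Finset.mul_sum]
      exact Finset.sum_congr rfl fun i _ => by ring
    have h2 : ∑ i ∈ Finset.range k, (1 / β) ^ i ≤ (1 - 1 / β)⁻¹ := by
      rw [← tsum_geometric_of_lt_one hr0 hr1]
      exact (summable_geometric_of_lt_one hr0 hr1).sum_le_tsum _ (fun i _ => by positivity)
    have h3 : (1 / β) * (1 - 1 / β)⁻¹ = 1 / (β - 1) := by
      have : β - 1 ≠ 0 := by linarith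
      have h5 : (1 - 1 / β) = (β - 1) / β := by field_simp
      rw [h5]
      field_simp
    rw [h1, ← h3]
    exact mul_le_mul_of_nonneg_left h2 hr0
  -- split at m
  have hsplit : ∑ i ∈ Finset.range n, min 2 (4 * K * (1 / β) ^ (i + 1)) ≤
      ∑ i ∈ Finset.range (m + n), min 2 (4 * K * (1 / β) ^ (i + 1)) := by
    refine Finset.sum_le_sum_of_subset_of_nonneg (Finset.range_mono (by omega)) fun i _ _ => ?_
    exact le_min (by norm_num) (by positivity)
  refine hsplit.trans ?_
  rw [Finset.sum_range_add]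
  have hA : ∑ i ∈ Finset.range m, min 2 (4 * K * (1 / β) ^ (i + 1)) ≤ 2 * m := by
    refine (Finset.sum_le_sum fun i _ => min_le_left _ _).trans ?_
    simp [mul_comm]
  have hB : ∑ i ∈ Finset.range n, min 2 (4 * K * (1 / β) ^ (m + i + 1)) ≤ 4 / (β - 1) := by
    have h1 : ∀ i ∈ Finset.range n, min 2 (4 * K * (1 / β) ^ (m + i + 1)) ≤ 4 * (1 / β) ^ (i + 1) := by
      intro i _
      refine (min_le_right _ _).trans ?_
      have e : 4 * K * (1 / β) ^ (m + i + 1) = 4 * (K * (1 / β) ^ m) * (1 / β) ^ (i + 1) := by ring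
      rw [e]
      have h2 : 0 ≤ (1 / β) ^ (i + 1) := by positivity
      nlinarith
    refine (Finset.sum_le_sum h1).trans ?_
    rw [← Finset.mul_sum]
    have := hgeo n
    calc 4 * ∑ i ∈ Finset.range n, (1 / β) ^ (i + 1) ≤ 4 * (1 / (β - 1)) := by linarith
      _ = 4 / (β - 1) := by ring
  have hC : 2 * (m : ℝ) ≤ 2 + 2 / Real.log β * Real.log K := by
    have : 2 / Real.log β * Real.log K = 2 * (Real.log K / Real.log β) := by ring
    rw [this]
    linarith
  linarith

/-- oscillation -/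
theorem Mv_osc {β : ℝ} (hβ : 1 < β) : ∃ C : ℝ, 1 ≤ C ∧ ∀ (u v : ℕ → ℝ → ℝ) (a b β₁ β₂ : ℝ), β ≤ β₁ →
    Fam u v a b β₁ β₂ → ∀ (φ : ℝ → ℝ) (V K : ℝ), Cls φ V K → ∀ (n : ℕ) (p q : ℝ), a ≤ p → p < q → q ≤ b →
    1 ≤ u n q - u n p → u n q - u n p ≤ 2 → ∀ x ∈ Icc p q,
    |S φ u n x - Mv φ u p q| ≤ C * (1 + Real.log K) := by
  have hβ0 : 0 < β := zero_lt_one.trans hβ
  have hlβ : 0 < Real.log β := Real.log_pos hβ
  have hβ1 : 0 < β - 1 := sub_pos.2 hβ
  refine ⟨1 + 2 + 2 / Real.log β + 4 / (β - 1) + 2 * (1 - 1 / β)⁻¹, ?_, ?_⟩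
  · have h1 : 0 < (1 - 1 / β)⁻¹ := inv_pos.2 (sub_pos.2 ((div_lt_one hβ0).2 hβ))
    have h2 : 0 < 2 / Real.log β := by positivity
    have h3 : 0 < 4 / (β - 1) := by positivity
    linarith
  intro u v a b β₁ β₂ hββ hF φ V K hφ n p q hp hpq hq hn1 hn2 x hx
  have hsub : Icc p q ⊆ Icc a b := Icc_subset_Icc hp hq
  have hpm : p ∈ Icc a b := hsub ⟨le_rfl, hpq.le⟩
  have hqm : q ∈ Icc a b := hsub ⟨hpq.le, le_rfl⟩
  have hw : 0 < q - p := sub_pos.2 hpq
  have hvp : 0 < v n p := hF.pos n p hpm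
  have hβ₁0 : 0 < β₁ := hβ0.trans_le hββ
  obtain ⟨m1, m2⟩ := Fam.mvt hF n hp hpq.le hq
  have hd : v n q ≤ 2 * v n p := hF.dist2 n p hpm q hqm hpq.le hn2
  have hlow : 1 / 2 ≤ v n p * (q - p) := by nlinarith
  have hup : v n p * (q - p) ≤ 2 := m1.trans hn2
  have hr : 1 / β₁ ≤ 1 / β := one_div_le_one_div_of_le hβ0 hββ
  have hr0 : 0 ≤ 1 / β₁ := by positivity
  -- averages
  set A : ℕ → ℝ := fun j => (∫ y in p..q, φ (u j y)) / (q - p) with hA
  have hAsum : Summable A := (summable_int hF hφ hp hpq.le hq).div_const _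
  have hMv : Mv φ u p q = ∑ j ∈ Finset.range n, A j + ∑' d : ℕ, A (d + n) := by
    rw [hAsum.sum_add_tsum_nat_add n]
    rfl
  have hdiff : S φ u n x - Mv φ u p q = ∑ j ∈ Finset.range n, (φ (u j x) - A j) - ∑' d : ℕ, A (d + n) := by
    rw [hMv, Finset.sum_sub_distrib]
    unfold S
    ring
  -- tail
  have htail : |∑' d : ℕ, A (d + n)| ≤ 2 * (1 - 1 / β)⁻¹ := by
    have h1 : ∀ d : ℕ, |A (d + n)| ≤ 2 * (1 / β) ^ d := by
      intro d
      have h2 := term_bound hF hφ hp hpq.le hq n d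
      rw [add_comm n d] at h2
      have h3 : (1 / β₁) ^ d ≤ (1 / β) ^ d := pow_le_pow_left₀ hr0 hr d
      have h5 : 1 / v n p / (q - p) ≤ 2 := by
        rw [div_div, div_le_iff₀ (by positivity)]
        linarith
      calc |A (d + n)| = |∫ y in p..q, φ (u (d + n) y)| / (q - p) := by
            rw [hA, abs_div, abs_of_pos hw]
        _ ≤ (1 / β₁) ^ d * (1 / v n p) / (q - p) := by gcongr
        _ = (1 / β₁) ^ d * (1 / v n p / (q - p)) := by ring
        _ ≤ (1 / β) ^ d * 2 := by gcongr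
        _ = 2 * (1 / β) ^ d := by ring
    have hg : Summable (fun d : ℕ => 2 * (1 / β) ^ d) :=
      (summable_geometric_of_lt_one (by positivity) ((div_lt_one hβ0).2 hβ)).mul_left _
    have h6 := tsum_of_norm_bounded (f := fun d : ℕ => A (d + n)) hg.hasSum (fun d => h1 d)
    rw [Real.norm_eq_abs, tsum_mul_left, tsum_geometric_of_lt_one (by positivity) ((div_lt_one hβ0).2 hβ)] at h6
    exact h6
  -- head
  have hhead : |∑ j ∈ Finset.range n, (φ (u j x) - A j)| ≤ 2 + 2 / Real.log β * Real.log K + 4 / (β - 1) := by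
    have h1 : ∀ j ∈ Finset.range n, |φ (u j x) - A j| ≤ min 2 (4 * K * (1 / β) ^ ((n - 1 - j) + 1)) := by
      intro j hj
      have hj' := Finset.mem_range.1 hj
      have hk : n - 1 - j + 1 = n - j := by omega
      rw [hk]
      have hbd : ∀ y ∈ Icc p q, |φ (u j x) - φ (u j y)| ≤ min 2 (4 * K * (1 / β) ^ (n - j)) := by
        intro y hy
        refine le_min ?_ ?_
        · have h2 := hφ.bd (u j x)
          have h3 := hφ.bd (u j y)
          rw [abs_le] at h2 h3 ⊢
          constructor <;> linarith [h2.1, h2.2, h3.1, h3.2]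
        · have hm : ∀ z ∈ Icc p q, u j p ≤ u j z ∧ u j z ≤ u j q := by
            intro z hz
            have a1 := (Fam.mvt hF j hp hz.1 (hz.2.trans hq)).1
            have a2 := (Fam.mvt hF j (hp.trans hz.1) hz.2 hq).1
            have a3 := (hF.pos j p hpm).le
            have a4 := (hF.pos j z (hsub hz)).le
            constructor
            · nlinarith [mul_nonneg a3 (sub_nonneg.2 hz.1)]
            · nlinarith [mul_nonneg a4 (sub_nonneg.2 hz.2)]
          have hx' := hm x hx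
          have hy' := hm y hy
          have h4 : |u j x - u j y| ≤ u j q - u j p := by
            rw [abs_le]
            constructor <;> linarith [hx'.1, hx'.2, hy'.1, hy'.2]
          have h5 : u j q - u j p ≤ v j q * (q - p) := (Fam.mvt hF j hp hpq.le hq).2
          have h6 : β₁ ^ (n - j) * v j q ≤ v n q := by
            have := Fam.pow_le hF hqm j (n - j)
            rwa [show j + (n - j) = n by omega] at this
          have h7 : v j q ≤ (1 / β) ^ (n - j) * (2 * v n p) := by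
            have h8 : v j q ≤ (1 / β₁) ^ (n - j) * v n q := by
              rw [one_div_pow, one_div, inv_mul_eq_div, le_div_iff₀ (by positivity)]
              linarith
            refine h8.trans ?_
            exact mul_le_mul (pow_le_pow_left₀ hr0 hr _) hd (hF.pos n q hqm).le (by positivity)
          have h9 : u j q - u j p ≤ 4 * (1 / β) ^ (n - j) := by
            calc u j q - u j p ≤ v j q * (q - p) := h5
              _ ≤ (1 / β) ^ (n - j) * (2 * v n p) * (q - p) := mul_le_mul_of_nonneg_right h7 hw.le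
              _ = (1 / β) ^ (n - j) * 2 * (v n p * (q - p)) := by ring
              _ ≤ (1 / β) ^ (n - j) * 2 * 2 := mul_le_mul_of_nonneg_left hup (by positivity)
              _ = 4 * (1 / β) ^ (n - j) := by ring
          have hK0 : 0 ≤ K := zero_le_one.trans hφ.hK
          calc |φ (u j x) - φ (u j y)| ≤ K * |u j x - u j y| := hφ.lip _ _
            _ ≤ K * (4 * (1 / β) ^ (n - j)) := mul_le_mul_of_nonneg_left (h4.trans h9) hK0
            _ = 4 * K * (1 / β) ^ (n - j) := by ring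
      have hcont : ContinuousOn (fun y => φ (u j y)) (Icc p q) :=
        (Cls.cont hφ).comp_continuousOn fun y hy => (hF.deriv j y (hsub hy)).continuousAt.continuousWithinAt
      have hint : IntervalIntegrable (fun y => φ (u j y)) volume p q := by
        refine ContinuousOn.intervalIntegrable ?_
        rwa [uIcc_of_le hpq.le]
      have e1 : φ (u j x) - A j = (∫ y in p..q, (φ (u j x) - φ (u j y))) / (q - p) := by
        rw [intervalIntegral.integral_sub intervalIntegrable_const hint, intervalIntegral.integral_const, hA]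
        simp only [smul_eq_mul]
        field_simp
      rw [e1, abs_div, abs_of_pos hw, div_le_iff₀ hw]
      have h10 := intervalIntegral.norm_integral_le_of_norm_le_const (f := fun y => φ (u j x) - φ (u j y))
        (a := p) (b := q) (C := min 2 (4 * K * (1 / β) ^ (n - j))) (fun y hy => by
          rw [uIoc_of_le hpq.le] at hy
          exact hbd y ⟨hy.1.le, hy.2⟩)
      rw [Real.norm_eq_abs, abs_of_pos hw] at h10
      exact h10
    calc |∑ j ∈ Finset.range n, (φ (u j x) - A j)| ≤ ∑ j ∈ Finset.range n, |φ (u j x) - A j| :=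
          Finset.abs_sum_le_sum_abs _ _
      _ ≤ ∑ j ∈ Finset.range n, min 2 (4 * K * (1 / β) ^ ((n - 1 - j) + 1)) := Finset.sum_le_sum h1
      _ = ∑ i ∈ Finset.range n, min 2 (4 * K * (1 / β) ^ (i + 1)) :=
          Finset.sum_range_reflect (fun i => min 2 (4 * K * (1 / β) ^ (i + 1))) n
      _ ≤ _ := geom_min hβ hφ.hK n
  have hlK : 0 ≤ Real.log K := Real.log_nonneg hφ.hK
  rw [hdiff]
  refine (abs_sub _ _).trans ?_
  have h1 : 0 < (1 - 1 / β)⁻¹ := inv_pos.2 (sub_pos.2 ((div_lt_one hβ0).2 hβ))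
  have h3 : 0 < 4 / (β - 1) := by positivity
  have h2 : 0 < 2 / Real.log β := by positivity
  nlinarith [mul_nonneg h1.le hlK, mul_nonneg h3.le hlK, mul_nonneg h2.le hlK]

end Pool.Agent.Helper41.KD
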