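import Pool.Agent.Helper18.KD.LowerTree

/-!
# Steering: bounded vector valued averages on a tree

On a tree with vector valued averages `V` (a martingale) with bounded increments and non-degenerate second moments,
the points along which the averages stay bounded form a set of large dimension.
-/

set_option autoImplicit false

namespace Pool.Agent.Helper41.KD

open MeasureTheory Set Filter Topology
open Pool.Agent.Helper78.KD
open Pool.Agent.Helper18.KD (par par_lt par_eq exists_par ch_lt len_pos lower_mass Npos)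

/-- a bounded variable of mean zero is negative with a probability controlled by its variance -/
theorem neg_part {s : Finset ℕ} {w X : ℕ → ℝ} {W B σ : ℝ} (hw : ∀ j ∈ s, 0 ≤ w j) (hW : ∑ j ∈ s, w j = W)
    (hmean : ∑ j ∈ s, w j * X j = 0) (hB0 : 0 < B) (hB : ∀ j ∈ s, |X j| ≤ B)
    (hvar : σ * W ≤ ∑ j ∈ s, w j * X j ^ 2) (hσ : 0 < σ) :
    σ / (4 * B ^ 2) * W ≤ ∑ j ∈ s.filter (fun j => X j ≤ -(σ / (4 * B))), w j := by
  classical
  -- mean of the absolute value
  have h1 : σ * W ≤ B * ∑ j ∈ s, w j * |X j| := by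
    refine hvar.trans ?_
    rw [Finset.mul_sum]
    refine Finset.sum_le_sum fun j hj => ?_
    have h2 : X j ^ 2 ≤ B * |X j| := by
      rw [← sq_abs, sq]
      exact mul_le_mul_of_nonneg_right (hB j hj) (abs_nonneg _)
    calc w j * X j ^ 2 ≤ w j * (B * |X j|) := mul_le_mul_of_nonneg_left h2 (hw j hj)
      _ = B * (w j * |X j|) := by ring
  have h2 : ∑ j ∈ s, w j * |X j| = ∑ j ∈ s, w j * (|X j| - X j) := by
    simp only [mul_sub, Finset.sum_sub_distrib, hmean, sub_zero]
  set c : ℝ := σ / (4 * B) with hc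
  have hc0 : 0 < c := by positivity
  -- upper bound for the sum
  have h3 : ∑ j ∈ s, w j * (|X j| - X j) ≤ 2 * B * (∑ j ∈ s.filter (fun j => X j ≤ -c), w j) + 2 * c * W := by
    have h4 : ∀ j ∈ s, w j * (|X j| - X j) ≤ 2 * B * (if X j ≤ -c then w j else 0) + 2 * c * w j := by
      intro j hj
      have hwj := hw j hj
      have hBj := hB j hj
      split_ifs with h
      · have : X j ≤ 0 := by linarith
        rw [abs_of_nonpos this] at hBj ⊢
        have h5 : w j * (-X j - X j) ≤ w j * (2 * B) := mul_le_mul_of_nonneg_left (by linarith) hwj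
        have h6 : 0 ≤ 2 * c * w j := by positivity
        linarith
      · push Not at h
        rcases le_total (X j) 0 with h0 | h0
        · rw [abs_of_nonpos h0]
          have h5 : w j * (-X j - X j) ≤ w j * (2 * c) := mul_le_mul_of_nonneg_left (by linarith) hwj
          linarith
        · rw [abs_of_nonneg h0, sub_self, mul_zero]
          positivity
    refine (Finset.sum_le_sum h4).trans ?_
    rw [Finset.sum_add_distrib, ← Finset.mul_sum, ← Finset.mul_sum, hW, Finset.sum_filter]
  have h5 : σ * W ≤ B * (2 * B * (∑ j ∈ s.filter (fun j => X j ≤ -c), w j) + 2 * c * W) := by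
    refine h1.trans (mul_le_mul_of_nonneg_left ?_ hB0.le)
    rw [h2]
    exact h3
  have h6 : B * (2 * c * W) = σ * W / 2 := by
    rw [hc]; field_simp; ring
  rw [div_mul_eq_mul_div, div_le_iff₀ (by positivity)]
  nlinarith

section Steer

variable {ι : Type} [Fintype ι] (T : Tr) (V : ℕ → ℕ → ι → ℝ) (R c : ℝ)

/-- the `ℓ¹` norm of the averages -/
noncomputable def n1 (k i : ℕ) : ℝ := ∑ a, |V k i a|

open Classical in
/-- the allowed children: all if the averages are small, otherwise those in the direction of the origin -/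
noncomputable def Al (k i : ℕ) : Finset ℕ :=
  (T.ch k i).filter (fun j => n1 V k i < R ∨ ∑ a, V k i a * (V (k + 1) j a - V k i a) ≤ -(c * n1 V k i))

/-- total length of the allowed children -/
noncomputable def Aw (k i : ℕ) : ℝ := ∑ j ∈ Al T V R c k i, T.len (k + 1) j

open Classical in
/-- the masses -/
noncomputable def sm : ℕ → ℕ → ℝ
  | 0, _ => 1
  | k + 1, j => sm k (par T k j) *
      (if j ∈ Al T V R c k (par T k j) then T.len (k + 1) j / Aw T V R c k (par T k j) else 0)

open Classical in
theorem sm_succ {k i j : ℕ} (hi : i < T.N k) (hj : j ∈ T.ch k i) :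
    sm T V R c (k + 1) j = sm T V R c k i * (if j ∈ Al T V R c k i then T.len (k + 1) j / Aw T V R c k i else 0) := by
  simp only [sm]
  rw [par_eq T k hi hj]

variable {T V R c}

theorem Al_sub (k i : ℕ) : Al T V R c k i ⊆ T.ch k i := Finset.filter_subset _ _

theorem sm_nonneg : ∀ k i, i < T.N k → 0 ≤ sm T V R c k i := by
  classical
  intro k
  induction k with
  | zero => intro i _; simp [sm]
  | succ k ih =>
    intro j hj
    obtain ⟨i, hi, hji⟩ := exists_par T k j hj
    rw [sm_succ T V R c hi hji]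
    refine mul_nonneg (ih i hi) ?_
    split_ifs with h
    · exact div_nonneg (len_pos T _ hj).le (Finset.sum_nonneg fun l hl =>
        (len_pos T _ (ch_lt T hi (Al_sub k i hl))).le)
    · exact le_rfl

theorem sm_sum (hA : ∀ k i, i < T.N k → 0 < Aw T V R c k i) : ∀ k i, i < T.N k →
    ∑ j ∈ T.ch k i, sm T V R c (k + 1) j = sm T V R c k i := by
  classical
  intro k i hi
  rw [Finset.sum_congr rfl fun j hj => sm_succ T V R c hi hj, ← Finset.mul_sum, ← Finset.sum_filter]
  have h1 : (T.ch k i).filter (fun j => j ∈ Al T V R c k i) = Al T V R c k i := by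
    ext j
    simp only [Finset.mem_filter]
    exact ⟨fun h => h.2, fun h => ⟨Al_sub k i h, h⟩⟩
  rw [h1, ← Finset.sum_div]
  change sm T V R c k i * (Aw T V R c k i / Aw T V R c k i) = _
  rw [div_self (hA k i hi).ne', mul_one]

/-- the masses are dominated by the lengths -/
theorem sm_le {p : ℝ} (hp : 0 < p) (hA : ∀ k i, i < T.N k → p * T.len k i ≤ Aw T V R c k i) : ∀ k i, i < T.N k →
    sm T V R c k i ≤ 1 / T.len 0 0 * T.len k i * (1 / p) ^ k := by
  classical
  have hl0 : 0 < T.len 0 0 := len_pos T 0 (Npos T 0)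
  intro k
  induction k with
  | zero =>
    intro i hi
    have h0 : i = 0 := by rw [T.hN] at hi; omega
    subst h0
    simp [sm, hl0.ne']
  | succ k ih =>
    intro j hj
    obtain ⟨i, hi, hji⟩ := exists_par T k j hj
    rw [sm_succ T V R c hi hji]
    have h1 := ih i hi
    have hl := len_pos T k hi
    have hlj := len_pos T (k + 1) hj
    have hZ := hA k i hi
    have hpl : 0 < p * T.len k i := by positivity
    have h2 : (if j ∈ Al T V R c k i then T.len (k + 1) j / Aw T V R c k i else 0) ≤ T.len (k + 1) j / (p * T.len k i) := by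
      split_ifs with h
      · exact div_le_div_of_nonneg_left hlj.le hpl hZ
      · positivity
    calc sm T V R c k i * (if j ∈ Al T V R c k i then T.len (k + 1) j / Aw T V R c k i else 0)
        ≤ sm T V R c k i * (T.len (k + 1) j / (p * T.len k i)) :=
          mul_le_mul_of_nonneg_left h2 (sm_nonneg k i hi)
      _ ≤ (1 / T.len 0 0 * T.len k i * (1 / p) ^ k) * (T.len (k + 1) j / (p * T.len k i)) :=
          mul_le_mul_of_nonneg_right h1 (by positivity)
      _ = 1 / T.len 0 0 * T.len (k + 1) j * (1 / p) ^ (k + 1) := by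
          rw [pow_succ]
          field_simp

/-- the invariant -/
theorem sm_inv {B : ℝ} (hB : 0 < B) (hc : 0 < c) (hR : R = B ^ 2 * (Fintype.card ι + 1) / (2 * c))
    (hbd : ∀ k i, i < T.N k → ∀ j ∈ T.ch k i, ∀ a, |V (k + 1) j a - V k i a| ≤ B) (h0 : ∀ a, |V 0 0 a| ≤ B) :
    ∀ k i, i < T.N k → sm T V R c k i ≠ 0 → ∑ a, V k i a ^ 2 ≤ 2 * R ^ 2 + 2 * B ^ 2 * Fintype.card ι := by
  classical
  have hR0 : 0 < R := by rw [hR]; positivity
  have hsq : ∀ X : ι → ℝ, (∀ a, |X a| ≤ B) → ∑ a, X a ^ 2 ≤ B ^ 2 * Fintype.card ι := by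
    intro X hX
    calc ∑ a, X a ^ 2 ≤ ∑ _a : ι, B ^ 2 := Finset.sum_le_sum fun a _ => by
          rw [← sq_abs]; exact pow_le_pow_left₀ (abs_nonneg _) (hX a) 2
      _ = _ := by rw [Finset.sum_const, Finset.card_univ, nsmul_eq_mul, mul_comm]
  intro k
  induction k with
  | zero =>
    intro i hi _
    have h1 : i = 0 := by rw [T.hN] at hi; omega
    subst h1
    have := hsq (V 0 0) h0
    have h2 : 0 ≤ B ^ 2 * (Fintype.card ι : ℝ) := by positivity
    nlinarith [sq_nonneg R]
  | succ k ih =>
    intro j hj hne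
    obtain ⟨i, hi, hji⟩ := exists_par T k j hj
    rw [sm_succ T V R c hi hji] at hne
    have h1 := ih i hi (left_ne_zero_of_mul hne)
    have hmem : j ∈ Al T V R c k i := by
      by_contra h
      rw [if_neg h, mul_zero] at hne
      exact hne rfl
    have h2 := (Finset.mem_filter.1 hmem).2
    set X : ι → ℝ := fun a => V (k + 1) j a - V k i a with hX
    have hXB := hsq X (hbd k i hi j hji)
    have hdec : ∀ a, V (k + 1) j a = V k i a + X a := fun a => by simp only [hX]; ring
    rcases h2 with h2 | h2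
    · have h3 : ∑ a, V k i a ^ 2 ≤ R ^ 2 := by
        have h4 : ∑ a, V k i a ^ 2 ≤ n1 V k i ^ 2 := by
          have h5 : ∑ a, V k i a ^ 2 = ∑ a, |V k i a| ^ 2 := Finset.sum_congr rfl fun a _ => (sq_abs _).symm
          rw [h5]
          unfold n1
          exact Finset.sum_sq_le_sq_sum_of_nonneg (fun a _ => abs_nonneg _)
        have h6 : 0 ≤ n1 V k i := Finset.sum_nonneg fun a _ => abs_nonneg _
        exact h4.trans (pow_le_pow_left₀ h6 h2.le 2)
      have h4 : ∑ a, V (k + 1) j a ^ 2 ≤ ∑ a, (2 * V k i a ^ 2 + 2 * X a ^ 2) := by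
        refine Finset.sum_le_sum fun a _ => ?_
        rw [hdec a]
        nlinarith [sq_nonneg (V k i a - X a)]
      rw [Finset.sum_add_distrib, ← Finset.mul_sum, ← Finset.mul_sum] at h4
      nlinarith
    · rcases lt_or_ge (n1 V k i) R with h3 | h3
      · -- same as above
        have h3' : ∑ a, V k i a ^ 2 ≤ R ^ 2 := by
          have h4 : ∑ a, V k i a ^ 2 ≤ n1 V k i ^ 2 := by
            have h5 : ∑ a, V k i a ^ 2 = ∑ a, |V k i a| ^ 2 := Finset.sum_congr rfl fun a _ => (sq_abs _).symm
            rw [h5]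
            unfold n1
            exact Finset.sum_sq_le_sq_sum_of_nonneg (fun a _ => abs_nonneg _)
          have h6 : 0 ≤ n1 V k i := Finset.sum_nonneg fun a _ => abs_nonneg _
          exact h4.trans (pow_le_pow_left₀ h6 h3.le 2)
        have h4 : ∑ a, V (k + 1) j a ^ 2 ≤ ∑ a, (2 * V k i a ^ 2 + 2 * X a ^ 2) := by
          refine Finset.sum_le_sum fun a _ => ?_
          rw [hdec a]
          nlinarith [sq_nonneg (V k i a - X a)]
        rw [Finset.sum_add_distrib, ← Finset.mul_sum, ← Finset.mul_sum] at h4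
        nlinarith
      · have h4 : ∑ a, V (k + 1) j a ^ 2 = ∑ a, V k i a ^ 2 + 2 * ∑ a, V k i a * X a + ∑ a, X a ^ 2 := by
          rw [Finset.mul_sum, ← Finset.sum_add_distrib, ← Finset.sum_add_distrib]
          refine Finset.sum_congr rfl fun a _ => ?_
          rw [hdec a]
          ring
        have h5 : ∑ a, V k i a * X a ≤ -(c * R) := by
          have : c * R ≤ c * n1 V k i := mul_le_mul_of_nonneg_left h3 hc.le
          linarith
        have h6 : 2 * (c * R) = B ^ 2 * (Fintype.card ι + 1) := by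
          rw [hR]; field_simp
        rw [h4]
        nlinarith [sq_nonneg B]

end Steer

/-- the dimension of the set of points with bounded averages -/
theorem steer {ι : Type} [Fintype ι] (T : Tr) (V : ℕ → ℕ → ι → ℝ) {B σ ℓ₁ C : ℝ} (hB : 0 < B) (hσ : 0 < σ)
    (hσB : σ ≤ 4 * B ^ 2) (hℓ₁ : 0 < ℓ₁) (hC : 0 < C)
    (hhi : ∀ k i, i < T.N k → T.len k i ≤ C * Real.exp (-(k * ℓ₁)))
    (hlen : ∀ k i, i < T.N k → ∑ j ∈ T.ch k i, T.len (k + 1) j = T.len k i)
    (hmean : ∀ k i, i < T.N k → ∀ a, ∑ j ∈ T.ch k i, T.len (k + 1) j * (V (k + 1) j a - V k i a) = 0)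
    (hbd : ∀ k i, i < T.N k → ∀ j ∈ T.ch k i, ∀ a, |V (k + 1) j a - V k i a| ≤ B) (h0 : ∀ a, |V 0 0 a| ≤ B)
    (hvar : ∀ k i, i < T.N k → ∀ w : ι → ℝ, ∑ a, |w a| = 1 →
      σ * T.len k i ≤ ∑ j ∈ T.ch k i, T.len (k + 1) j * (∑ a, w a * (V (k + 1) j a - V k i a)) ^ 2) :
    ∃ R : ℝ, ENNReal.ofReal (1 - Real.log (4 * B ^ 2 / σ) / ℓ₁) ≤
      dimH {x : ℝ | ∃ k₁ : ℕ, ∀ k, k₁ ≤ k → ∃ i < T.N k, x ∈ T.cell k i ∧ ∀ a, |V k i a| ≤ R} := by
  classical
  set c : ℝ := σ / (4 * B) with hcdef
  have hc : 0 < c := by positivity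
  set R : ℝ := B ^ 2 * (Fintype.card ι + 1) / (2 * c) with hR
  have hR0 : 0 < R := by positivity
  set p : ℝ := σ / (4 * B ^ 2) with hp
  have hp0 : 0 < p := by positivity
  have hp1 : p ≤ 1 := by rw [hp, div_le_one (by positivity)]; exact hσB
  -- the allowed children have a positive proportion
  have hA : ∀ k i, i < T.N k → p * T.len k i ≤ Aw T V R c k i := by
    intro k i hi
    have hli := len_pos T k hi
    rcases lt_or_ge (n1 V k i) R with h | h
    · have h1 : Al T V R c k i = T.ch k i := by
        unfold Al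
        rw [Finset.filter_true_of_mem]
        intro j _
        exact Or.inl h
      unfold Aw
      rw [h1, hlen k i hi]
      nlinarith
    · have hn : 0 < n1 V k i := hR0.trans_le h
      set w : ι → ℝ := fun a => V k i a / n1 V k i with hw
      have hw1 : ∑ a, |w a| = 1 := by
        simp only [hw, abs_div, abs_of_pos hn]
        rw [← Finset.sum_div]
        exact div_self hn.ne'
      have e1 : ∀ j, ∑ a, w a * (V (k + 1) j a - V k i a) =
          (∑ a, V k i a * (V (k + 1) j a - V k i a)) / n1 V k i := by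
        intro j
        rw [Finset.sum_div]
        refine Finset.sum_congr rfl fun a _ => ?_
        simp only [hw]
        ring
      have h2 := neg_part (s := T.ch k i) (w := T.len (k + 1)) (X := fun j => ∑ a, w a * (V (k + 1) j a - V k i a))
        (W := T.len k i) (B := B) (σ := σ) (fun j hj => (len_pos T _ (ch_lt T hi hj)).le) (hlen k i hi) ?_ hB ?_
        (hvar k i hi w hw1) hσ
      · refine h2.trans ?_
        unfold Aw
        refine Finset.sum_le_sum_of_subset_of_nonneg ?_ ?_
        · intro j hj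
          rw [Finset.mem_filter] at hj
          unfold Al
          rw [Finset.mem_filter]
          refine ⟨hj.1, Or.inr ?_⟩
          have h3 := hj.2
          rw [e1, div_le_iff₀ hn] at h3
          linarith
        · intro j hj _
          exact (len_pos T _ (ch_lt T hi (Al_sub k i hj))).le
      · have e2 : ∑ j ∈ T.ch k i, T.len (k + 1) j * (∑ a, w a * (V (k + 1) j a - V k i a)) =
            ∑ a, w a * ∑ j ∈ T.ch k i, T.len (k + 1) j * (V (k + 1) j a - V k i a) := by
          simp only [Finset.mul_sum]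
          rw [Finset.sum_comm]
          refine Finset.sum_congr rfl fun a _ => Finset.sum_congr rfl fun j _ => by ring
        rw [e2]
        refine Finset.sum_eq_zero fun a _ => ?_
        rw [hmean k i hi a, mul_zero]
      · intro j hj
        refine (Finset.abs_sum_le_sum_abs _ _).trans ?_
        calc ∑ a, |w a * (V (k + 1) j a - V k i a)| ≤ ∑ a, |w a| * B := Finset.sum_le_sum fun a _ => by
              rw [abs_mul]
              exact mul_le_mul_of_nonneg_left (hbd k i hi j hj a) (abs_nonneg _)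
          _ = B := by rw [← Finset.sum_mul, hw1, one_mul]
  have hApos : ∀ k i, i < T.N k → 0 < Aw T V R c k i := fun k i hi =>
    lt_of_lt_of_le (mul_pos hp0 (len_pos T k hi)) (hA k i hi)
  set P : ℝ := 2 * R ^ 2 + 2 * B ^ 2 * Fintype.card ι with hP
  have hP0 : 0 ≤ P := by positivity
  refine ⟨Real.sqrt P, ?_⟩
  have hinv := sm_inv (T := T) (V := V) (R := R) (c := c) hB hc hR hbd h0
  have hlog : Real.log (4 * B ^ 2 / σ) = Real.log (1 / p) := by
    congr 1
    rw [hp, one_div_div]
  rw [hlog]
  refine lower_mass T (sm T V R c) rfl sm_nonneg (sm_sum hApos) (C' := 1 / T.len 0 0) hℓ₁ hC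
    (by have := len_pos T 0 (Npos T 0); positivity) (Real.log_nonneg (by rw [le_div_iff₀ hp0]; linarith)) hhi
    (fun k => (Finset.range (T.N k)).filter (fun i => P < ∑ a, V k i a ^ 2)) (fun k => Finset.filter_subset _ _)
    (b := fun _ => 0) summable_zero ?_ ?_ _ ?_
  · intro k
    refine (Finset.sum_eq_zero fun i hi => ?_).le
    rw [Finset.mem_filter, Finset.mem_range] at hi
    by_contra hne
    exact absurd (hinv k i hi.1 hne) (not_le.2 hi.2)
  · intro k i hi _
    refine (sm_le hp0 hA k i hi).trans (le_of_eq ?_)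
    congr 1
    rw [mul_comm (k : ℝ), Real.exp_mul, Real.exp_log (by positivity), Real.rpow_natCast]
  · rintro x ⟨k₁, hx⟩
    refine ⟨k₁, fun k hk => ?_⟩
    obtain ⟨i, hi, hib, hxc⟩ := hx k hk
    refine ⟨i, hi, hxc, fun a => ?_⟩
    rw [Finset.mem_filter, not_and, not_lt] at hib
    have h1 := hib (Finset.mem_range.2 hi)
    refine Real.abs_le_sqrt ?_
    exact (Finset.single_le_sum (f := fun a => V k i a ^ 2) (fun b _ => sq_nonneg _) (Finset.mem_univ a)).trans h1

end Pool.Agent.Helper41.KD
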