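import Pool.Agent.Helper41.KD.Bonnet

/-!
# Oscillatory integrals of perturbed phases
-/

set_option autoImplicit false

namespace Pool.Agent.Helper41.KD

open MeasureTheory Set Filter Topology

/-- one perturbation -/
theorem pert_int {f g : ℝ → ℝ} {p q r G : ℝ} (hpq : p ≤ q) (hf : MonotoneOn f (Icc p q) ∨ AntitoneOn f (Icc p q))
    (hfc : ContinuousOn f (Icc p q)) (hr : ∀ x ∈ Icc p q, |f x| ≤ r)
    (hg : ContinuousOn g (Icc p q)) (hG : ∀ x ∈ Icc p q, |∫ y in p..x, g y| ≤ G) :
    |∫ x in p..q, f x * g x| ≤ 3 * r * G := by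
  have hpm : p ∈ Icc p q := ⟨le_rfl, hpq⟩
  have hqm : q ∈ Icc p q := ⟨hpq, le_rfl⟩
  have hG0 : 0 ≤ G := (abs_nonneg _).trans (hG p hpm)
  -- the antitone case
  have key : ∀ f : ℝ → ℝ, AntitoneOn f (Icc p q) → ContinuousOn f (Icc p q) → (∀ x ∈ Icc p q, |f x| ≤ r) →
      |∫ x in p..q, f x * g x| ≤ 3 * r * G := by
    intro f hf hfc hr
    have h1 := bonnet (f := fun x => f x + r) hpq (fun x hx y hy h => add_le_add_left (hf hx hy h) r)
      (by have := abs_le.1 (hr q hqm); linarith [this.1]) hg hG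
    have i1 : IntervalIntegrable (fun x => f x * g x) volume p q := by
      refine ContinuousOn.intervalIntegrable ?_
      rw [uIcc_of_le hpq]
      exact hfc.mul hg
    have i2 : IntervalIntegrable (fun x => r * g x) volume p q := by
      refine ContinuousOn.intervalIntegrable ?_
      rw [uIcc_of_le hpq]
      exact continuousOn_const.mul hg
    have e1 : ∫ x in p..q, (f x + r) * g x = (∫ x in p..q, f x * g x) + r * ∫ x in p..q, g x := by
      rw [← intervalIntegral.integral_const_mul, ← intervalIntegral.integral_add i1 i2]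
      refine intervalIntegral.integral_congr fun x _ => ?_
      ring
    rw [e1] at h1
    have h2 := hG q hqm
    have h3 := abs_le.1 (hr p hpm)
    have hr0 : 0 ≤ r := (abs_nonneg _).trans (hr p hpm)
    have h4 : |r * ∫ x in p..q, g x| ≤ r * G := by
      rw [abs_mul, abs_of_nonneg hr0]
      exact mul_le_mul_of_nonneg_left h2 hr0
    have h5 : G * (f p + r) ≤ G * (2 * r) := mul_le_mul_of_nonneg_left (by linarith [h3.2]) hG0
    have h6 := abs_le.1 h4
    have h7 := abs_le.1 h1
    rw [abs_le]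
    constructor <;> nlinarith [h6.1, h6.2, h7.1, h7.2]
  rcases hf with hf | hf
  · have h := key (fun x => - f x) hf.neg hfc.neg (fun x hx => by rw [abs_neg]; exact hr x hx)
    have e : ∫ x in p..q, - f x * g x = - ∫ x in p..q, f x * g x := by
      rw [← intervalIntegral.integral_neg]
      refine intervalIntegral.integral_congr fun x _ => ?_
      ring
    rw [e, abs_neg] at h
    exact h
  · exact key f hf hfc hr

/-- the integral of an oscillating function whose phase has the derivative `v (R + ∑ ρ i)` -/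
theorem osc_int {v w : ℝ → ℝ} {p q R : ℝ} {ι : Type*} (s : Finset ι) (ρ : ι → ℝ → ℝ) (r : ι → ℝ)
    (hpq : p ≤ q) (hR : R ≠ 0) (hv : MonotoneOn v (Icc p q)) (hv0 : ∀ x ∈ Icc p q, 0 < v x)
    (hvc : ContinuousOn v (Icc p q)) (hρc : ∀ i ∈ s, ContinuousOn (ρ i) (Icc p q))
    (hρm : ∀ i ∈ s, MonotoneOn (ρ i) (Icc p q) ∨ AntitoneOn (ρ i) (Icc p q))
    (hρ : ∀ i ∈ s, ∀ x ∈ Icc p q, |ρ i x| ≤ r i) (hr : ∑ i ∈ s, r i ≤ |R| / 16)
    (hw : ∀ x ∈ Icc p q, HasDerivAt w (v x * (R + ∑ i ∈ s, ρ i x)) x) (θ : ℝ) :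
    |∫ x in p..q, Real.cos (2 * Real.pi * w x + θ)| ≤ 1 / (|R| * v p) := by
  have hR0 : 0 < |R| := abs_pos.2 hR
  have hpm : p ∈ Icc p q := ⟨le_rfl, hpq⟩
  have hvp := hv0 p hpm
  have hπ := Real.pi_gt_three
  set g : ℝ → ℝ := fun x => Real.cos (2 * Real.pi * w x + θ) with hg
  have hwc : ContinuousOn w (Icc p q) := fun x hx => (hw x hx).continuousAt.continuousWithinAt
  have hgc : ContinuousOn g (Icc p q) := by
    refine Real.continuous_cos.comp_continuousOn ?_
    exact (continuousOn_const.mul hwc).add continuousOn_const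
  set d : ℝ → ℝ := fun x => v x * (R + ∑ i ∈ s, ρ i x) with hd
  have hdc : ContinuousOn d (Icc p q) := hvc.mul (continuousOn_const.add (continuousOn_finsetSum s hρc))
  -- all subintervals
  set E : Set ℝ := {y | ∃ p' q' : ℝ, p ≤ p' ∧ p' ≤ q' ∧ q' ≤ q ∧ y = |∫ x in p'..q', g x|} with hE
  have hEb : BddAbove E := by
    refine ⟨q - p, ?_⟩
    rintro y ⟨p', q', h1, h2, h3, rfl⟩
    have h4 := intervalIntegral.norm_integral_le_of_norm_le_const (a := p') (b := q') (f := g) (C := 1)
      (fun x _ => by rw [Real.norm_eq_abs]; exact Real.abs_cos_le_one _)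
    rw [Real.norm_eq_abs, one_mul, abs_of_nonneg (sub_nonneg.2 h2)] at h4
    linarith
  have hEn : E.Nonempty := ⟨_, p, q, le_rfl, hpq, le_rfl, rfl⟩
  set G := sSup E with hGdef
  have hG : ∀ p' q' : ℝ, p ≤ p' → p' ≤ q' → q' ≤ q → |∫ x in p'..q', g x| ≤ G := fun p' q' h1 h2 h3 =>
    le_csSup hEb ⟨p', q', h1, h2, h3, rfl⟩
  have hG0 : 0 ≤ G := (abs_nonneg _).trans (hG p q le_rfl hpq le_rfl)
  have hself : G ≤ (1 / (Real.pi * v p) + 3 * (|R| / 16) * G) / |R| := by
    refine csSup_le hEn ?_
    rintro y ⟨p', q', h1, h2, h3, rfl⟩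
    have hsub : Icc p' q' ⊆ Icc p q := Icc_subset_Icc h1 h3
    have hvp' : 0 < v p' := hv0 p' (hsub ⟨le_rfl, h2⟩)
    -- first term
    have t1 : |∫ x in p'..q', (1 / v x) * (g x * d x)| ≤ 1 / Real.pi * (1 / v p') := by
      refine bonnet (f := fun x => 1 / v x) h2 ?_ (one_div_nonneg.2 (hv0 q' (hsub ⟨h2, le_rfl⟩)).le)
        ((hgc.mul hdc).mono hsub) ?_
      · intro x hx y hy h
        exact one_div_le_one_div_of_le (hv0 x (hsub hx)) (hv (hsub hx) (hsub hy) h)
      · intro x hx
        have hsub2 : uIcc p' x ⊆ Icc p q := by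
          rw [uIcc_of_le hx.1]
          exact (Icc_subset_Icc le_rfl hx.2).trans hsub
        have hder : ∀ y ∈ uIcc p' x, HasDerivAt (fun y => Real.sin (2 * Real.pi * w y + θ) / (2 * Real.pi)) (g y * d y) y := by
          intro y hy
          have h4 := (((hw y (hsub2 hy)).const_mul (2 * Real.pi)).add_const θ).sin.div_const (2 * Real.pi)
          refine h4.congr_deriv ?_
          have : (2 * Real.pi) ≠ 0 := by positivity
          simp only [hg, hd]
          field_simp
        rw [intervalIntegral.integral_eq_sub_of_hasDerivAt hder]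
        · have h5 := Real.abs_sin_le_one (2 * Real.pi * w x + θ)
          have h6 := Real.abs_sin_le_one (2 * Real.pi * w p' + θ)
          rw [← sub_div, abs_div, abs_of_pos (by positivity : (0:ℝ) < 2 * Real.pi), div_le_div_iff₀ (by positivity) (by positivity)]
          have h7 := abs_sub (Real.sin (2 * Real.pi * w x + θ)) (Real.sin (2 * Real.pi * w p' + θ))
          nlinarith
        · refine ContinuousOn.intervalIntegrable ?_
          exact (hgc.mul hdc).mono hsub2
    -- perturbations
    have t2 : ∀ i ∈ s, |∫ x in p'..q', ρ i x * g x| ≤ 3 * r i * G := by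
      intro i hi
      refine pert_int h2 ((hρm i hi).imp (fun h => h.mono hsub) (fun h => h.mono hsub)) ((hρc i hi).mono hsub)
        (fun x hx => hρ i hi x (hsub hx)) (hgc.mono hsub) (fun x hx => hG p' x h1 hx.1 (hx.2.trans h3))
    have hII : ∀ f : ℝ → ℝ, ContinuousOn f (Icc p q) → IntervalIntegrable f volume p' q' := by
      intro f hf
      refine ContinuousOn.intervalIntegrable ?_
      rw [uIcc_of_le h2]
      exact hf.mono hsub
    have e1 : R * ∫ x in p'..q', g x = (∫ x in p'..q', (1 / v x) * (g x * d x)) - ∑ i ∈ s, ∫ x in p'..q', ρ i x * g x := by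
      rw [← intervalIntegral.integral_finsetSum (f := fun i x => ρ i x * g x)
          (fun i hi => hII _ ((hρc i hi).mul hgc)),
        ← intervalIntegral.integral_const_mul, ← intervalIntegral.integral_sub]
      · refine intervalIntegral.integral_congr fun x hx => ?_
        rw [uIcc_of_le h2] at hx
        have hx0 := (hv0 x (hsub hx)).ne'
        simp only [hd]
        rw [← Finset.sum_mul]
        field_simp
        ring
      · exact hII _ ((continuousOn_const.div hvc (fun x hx => (hv0 x hx).ne')).mul (hgc.mul hdc))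
      · exact hII _ (continuousOn_finsetSum s fun i hi => (hρc i hi).mul hgc)
    have h5 : |R| * |∫ x in p'..q', g x| ≤ 1 / (Real.pi * v p) + 3 * (|R| / 16) * G := by
      rw [← abs_mul, e1]
      refine (abs_sub _ _).trans (add_le_add ?_ ?_)
      · refine t1.trans ?_
        rw [one_div_mul_one_div]
        have h6 : v p ≤ v p' := hv hpm (hsub ⟨le_rfl, h2⟩) h1
        exact one_div_le_one_div_of_le (by positivity) (mul_le_mul_of_nonneg_left h6 (by positivity))
      · refine (Finset.abs_sum_le_sum_abs _ _).trans ((Finset.sum_le_sum t2).trans ?_)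
        rw [← Finset.sum_mul, ← Finset.mul_sum]
        exact mul_le_mul_of_nonneg_right (mul_le_mul_of_nonneg_left hr (by norm_num)) hG0
    rw [le_div_iff₀ hR0]
    linarith
  refine (hG p q le_rfl hpq le_rfl).trans ?_
  rw [le_div_iff₀ hR0] at hself
  have h8 : 1 / (Real.pi * v p) ≤ (1 / 3) * (1 / v p) := by
    rw [one_div_mul_one_div]
    exact one_div_le_one_div_of_le (by positivity) (mul_le_mul_of_nonneg_right hπ.le hvp.le)
  have h9 : 0 ≤ 1 / v p := by positivity
  rw [← one_div_mul_one_div, mul_comm (1 / |R|), ← div_eq_mul_one_div, le_div_iff₀ hR0]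
  nlinarith

end Pool.Agent.Helper41.KD
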